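import Pool.Agent.U35.ZA.Main

set_option autoImplicit false

/-!
Classes of oracles which are given by computable lists of indices of computable maps: the
construction is computable, uniformly in the oracle.
-/

namespace Pool.Agent.U35.ZV

open Encodable Pool.Agent.Helper227 Pool.Agent.U35.ZA
open Pool.Agent.H548R2.Post (En res jn tLe_jump_of_limit chr not_jump_le)
open Pool.Agent.H869R3.RT (PostIndex)

/-- classes given by computable lists of indices of computable maps -/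
structure GS {ι : Type} [Primcodable ι] (g : ι → (ℕ → Bool) → ℕ → Bool) (mul : ι → ι → ι)
    (one : ι) (IL : (ℕ → Bool) → ℕ × ℕ → List ι → Prop)
    (Cl : ℕ → ℕ → (ℕ → Bool) → Set (ℕ → Bool)) : Prop where
  g_one : ∀ X, g one X = X
  g_mul : ∀ i k X, g i (g k X) = g (mul k i) X
  pmul : Primrec₂ mul
  cf : CF g
  us : US fun X (x : (ℕ × ℕ) × List ι) => IL X x.1 x.2
  ex : ∀ X s n, ∃ L, IL X (s, n) L
  sound : ∀ X s n L, IL X (s, n) L → ∀ Y, Y ∈ Cl s n X ↔ ∃ i ∈ L, Y = g i X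

section
variable {ι : Type} [Primcodable ι] {g : ι → (ℕ → Bool) → ℕ → Bool} {mul : ι → ι → ι}
  {one : ι} {IL : (ℕ → Bool) → ℕ × ℕ → List ι → Prop}
  {Cl : ℕ → ℕ → (ℕ → Bool) → Set (ℕ → Bool)}

theorem us_sub (cf : CF g) {α β : Type} [Primcodable α] [Primcodable β]
    {p : (ℕ → Bool) → α → Prop} (hp : US p) {f : β → ι} {h : β → α} (hf : Primrec f)
    (hh : Primrec h) : US fun X b => p (g (f b) X) (h b) :=
  (hp.shift cf).comp (hf.pair hh)

/-- the condition `Good` on finite data -/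
def Gd (g : ι → (ℕ → Bool) → ℕ → Bool) (mul : ι → ι → ι) (X : ℕ → Bool)
    (x : ι × (ℕ × List (ι × List ℕ))) : Prop :=
  (∀ p ∈ x.2.2, ¬ el x.2.1 ∈ p.2 ∧ ∀ e < lv x.2.1,
    res x.2.1 e (jn (g (mul x.1 p.1) X) p.2) ≤ el x.2.1) ∧
  ∃ p, p ∈ x.2.2 ∧ (En x.2.1 (lv x.2.1) (el x.2.1) (g (mul x.1 p.1) X) ∧
    ∀ y ∈ p.2, ¬ En x.2.1 (lv x.2.1) y (g (mul x.1 p.1) X))

theorem us_Gd (cf : CF g) (pmul : Primrec₂ mul) :
    (US fun X (x : ι × (ℕ × List (ι × List ℕ))) => Gd g mul X x) ∧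
      US fun X (x : ι × (ℕ × List (ι × List ℕ))) => ¬ Gd g mul X x := by
  have ps : Primrec fun x : ι × (ℕ × List (ι × List ℕ)) => x.2.1 := Primrec.fst.comp Primrec.snd
  have pJ : Primrec fun x : ι × (ℕ × List (ι × List ℕ)) => x.2.2 := Primrec.snd.comp Primrec.snd
  have pi : Primrec fun w : (ι × (ℕ × List (ι × List ℕ))) × (ι × List ℕ) => mul w.1.1 w.2.1 :=
    pmul.comp (Primrec.fst.comp Primrec.fst) (Primrec.fst.comp Primrec.snd)
  have pL : Primrec fun w : (ι × (ℕ × List (ι × List ℕ))) × (ι × List ℕ) => w.2.2 :=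
    Primrec.snd.comp Primrec.snd
  have ps' : Primrec fun w : (ι × (ℕ × List (ι × List ℕ))) × (ι × List ℕ) => w.1.2.1 :=
    ps.comp Primrec.fst
  have pel : Primrec fun w : (ι × (ℕ × List (ι × List ℕ))) × (ι × List ℕ) => el w.1.2.1 :=
    primrec_el.comp ps'
  have plv : Primrec fun w : (ι × (ℕ × List (ι × List ℕ))) × (ι × List ℕ) => lv w.1.2.1 :=
    primrec_lv.comp ps'
  have hmem : PrimrecPred fun w : (ι × (ℕ × List (ι × List ℕ))) × (ι × List ℕ) =>
      el w.1.2.1 ∈ w.2.2 := primrec_mem pel pL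
  have hJ : PrimrecPred fun w : (ι × (ℕ × List (ι × List ℕ))) × (ι × List ℕ) =>
      w.2 ∈ w.1.2.2 := primrec_mem Primrec.snd (pJ.comp Primrec.fst)
  have r1 : US fun X (w : ((ι × (ℕ × List (ι × List ℕ))) × (ι × List ℕ)) × ℕ) =>
      res w.1.1.2.1 w.2 (jn (g (mul w.1.1.1 w.1.2.1) X) w.1.2.2) ≤ el w.1.1.2.1 :=
    us_sub cf us_res (f := fun w : ((ι × (ℕ × List (ι × List ℕ))) × (ι × List ℕ)) × ℕ =>
        mul w.1.1.1 w.1.2.1)
      (h := fun w : ((ι × (ℕ × List (ι × List ℕ))) × (ι × List ℕ)) × ℕ =>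
        ((w.1.1.2.1, (w.2, el w.1.1.2.1)), w.1.2.2)) (pi.comp Primrec.fst)
      (((ps'.comp Primrec.fst).pair (Primrec.snd.pair (pel.comp Primrec.fst))).pair
        (pL.comp Primrec.fst))
  have r2 : US fun X (w : ((ι × (ℕ × List (ι × List ℕ))) × (ι × List ℕ)) × ℕ) =>
      ¬ res w.1.1.2.1 w.2 (jn (g (mul w.1.1.1 w.1.2.1) X) w.1.2.2) ≤ el w.1.1.2.1 :=
    us_sub cf us_nres (f := fun w : ((ι × (ℕ × List (ι × List ℕ))) × (ι × List ℕ)) × ℕ =>
        mul w.1.1.1 w.1.2.1)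
      (h := fun w : ((ι × (ℕ × List (ι × List ℕ))) × (ι × List ℕ)) × ℕ =>
        ((w.1.1.2.1, (w.2, el w.1.1.2.1)), w.1.2.2)) (pi.comp Primrec.fst)
      (((ps'.comp Primrec.fst).pair (Primrec.snd.pair (pel.comp Primrec.fst))).pair
        (pL.comp Primrec.fst))
  have e1 : US fun X (w : (ι × (ℕ × List (ι × List ℕ))) × (ι × List ℕ)) =>
      En w.1.2.1 (lv w.1.2.1) (el w.1.2.1) (g (mul w.1.1 w.2.1) X) :=
    us_sub cf us_En (f := fun w : (ι × (ℕ × List (ι × List ℕ))) × (ι × List ℕ) =>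
        mul w.1.1 w.2.1)
      (h := fun w : (ι × (ℕ × List (ι × List ℕ))) × (ι × List ℕ) =>
        (w.1.2.1, (lv w.1.2.1, el w.1.2.1))) pi (ps'.pair (plv.pair pel))
  have e2 : US fun X (w : (ι × (ℕ × List (ι × List ℕ))) × (ι × List ℕ)) =>
      ¬ En w.1.2.1 (lv w.1.2.1) (el w.1.2.1) (g (mul w.1.1 w.2.1) X) :=
    us_sub cf us_nEn (f := fun w : (ι × (ℕ × List (ι × List ℕ))) × (ι × List ℕ) =>
        mul w.1.1 w.2.1)
      (h := fun w : (ι × (ℕ × List (ι × List ℕ))) × (ι × List ℕ) =>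
        (w.1.2.1, (lv w.1.2.1, el w.1.2.1))) pi (ps'.pair (plv.pair pel))
  have e3 : US fun X (w : ((ι × (ℕ × List (ι × List ℕ))) × (ι × List ℕ)) × ℕ) =>
      En w.1.1.2.1 (lv w.1.1.2.1) w.2 (g (mul w.1.1.1 w.1.2.1) X) :=
    us_sub cf us_En (f := fun w : ((ι × (ℕ × List (ι × List ℕ))) × (ι × List ℕ)) × ℕ =>
        mul w.1.1.1 w.1.2.1)
      (h := fun w : ((ι × (ℕ × List (ι × List ℕ))) × (ι × List ℕ)) × ℕ =>
        (w.1.1.2.1, (lv w.1.1.2.1, w.2))) (pi.comp Primrec.fst)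
      ((ps'.comp Primrec.fst).pair ((plv.comp Primrec.fst).pair Primrec.snd))
  have e4 : US fun X (w : ((ι × (ℕ × List (ι × List ℕ))) × (ι × List ℕ)) × ℕ) =>
      ¬ En w.1.1.2.1 (lv w.1.1.2.1) w.2 (g (mul w.1.1.1 w.1.2.1) X) :=
    us_sub cf us_nEn (f := fun w : ((ι × (ℕ × List (ι × List ℕ))) × (ι × List ℕ)) × ℕ =>
        mul w.1.1.1 w.1.2.1)
      (h := fun w : ((ι × (ℕ × List (ι × List ℕ))) × (ι × List ℕ)) × ℕ =>
        (w.1.1.2.1, (lv w.1.1.2.1, w.2))) (pi.comp Primrec.fst)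
      ((ps'.comp Primrec.fst).pair ((plv.comp Primrec.fst).pair Primrec.snd))
  constructor
  · refine US.and ?_ ?_
    · exact US.all_mem (f := fun x : ι × (ℕ × List (ι × List ℕ)) => x.2.2)
        (p := fun X (x : ι × (ℕ × List (ι × List ℕ))) (p : ι × List ℕ) => ¬ el x.2.1 ∈ p.2 ∧
          ∀ e < lv x.2.1, res x.2.1 e (jn (g (mul x.1 p.1) X) p.2) ≤ el x.2.1)
        (US.and (US.of_prim (PrimrecPred.not hmem)) (US.all_lt
          (p := fun X (w : (ι × (ℕ × List (ι × List ℕ))) × (ι × List ℕ)) (e : ℕ) =>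
          res w.1.2.1 e (jn (g (mul w.1.1 w.2.1) X) w.2.2) ≤ el w.1.2.1) r1 plv)) pJ
    · exact US.ex (p := fun X (x : ι × (ℕ × List (ι × List ℕ))) (p : ι × List ℕ) =>
        p ∈ x.2.2 ∧ (En x.2.1 (lv x.2.1) (el x.2.1) (g (mul x.1 p.1) X) ∧
          ∀ y ∈ p.2, ¬ En x.2.1 (lv x.2.1) y (g (mul x.1 p.1) X)))
        (US.and (US.of_prim hJ) (US.and e1 (US.all_mem
          (p := fun X (w : (ι × (ℕ × List (ι × List ℕ))) × (ι × List ℕ)) (y : ℕ) =>
          ¬ En w.1.2.1 (lv w.1.2.1) y (g (mul w.1.1 w.2.1) X)) e4 pL)))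
  · have h1 : US fun X (x : ι × (ℕ × List (ι × List ℕ))) => (∃ p : ι × List ℕ, p ∈ x.2.2 ∧
        (el x.2.1 ∈ p.2 ∨ ∃ e < lv x.2.1,
          ¬ res x.2.1 e (jn (g (mul x.1 p.1) X) p.2) ≤ el x.2.1)) :=
      US.ex (p := fun X (x : ι × (ℕ × List (ι × List ℕ))) (p : ι × List ℕ) => p ∈ x.2.2 ∧
        (el x.2.1 ∈ p.2 ∨ ∃ e < lv x.2.1,
          ¬ res x.2.1 e (jn (g (mul x.1 p.1) X) p.2) ≤ el x.2.1))
        (US.and (US.of_prim hJ) (US.or (US.of_prim hmem) (US.ex_lt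
          (p := fun X (w : (ι × (ℕ × List (ι × List ℕ))) × (ι × List ℕ)) (e : ℕ) =>
          ¬ res w.1.2.1 e (jn (g (mul w.1.1 w.2.1) X) w.2.2) ≤ el w.1.2.1) r2 plv)))
    have h2 : US fun X (x : ι × (ℕ × List (ι × List ℕ))) => ∀ p ∈ x.2.2,
        ¬ En x.2.1 (lv x.2.1) (el x.2.1) (g (mul x.1 p.1) X) ∨
        ∃ y, y ∈ p.2 ∧ En x.2.1 (lv x.2.1) y (g (mul x.1 p.1) X) :=
      US.all_mem (f := fun x : ι × (ℕ × List (ι × List ℕ)) => x.2.2)
        (p := fun X (x : ι × (ℕ × List (ι × List ℕ))) (p : ι × List ℕ) =>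
        ¬ En x.2.1 (lv x.2.1) (el x.2.1) (g (mul x.1 p.1) X) ∨
        ∃ y, y ∈ p.2 ∧ En x.2.1 (lv x.2.1) y (g (mul x.1 p.1) X))
        (US.or e2 (US.ex
          (p := fun X (w : (ι × (ℕ × List (ι × List ℕ))) × (ι × List ℕ)) (y : ℕ) =>
          y ∈ w.2.2 ∧ En w.1.2.1 (lv w.1.2.1) y (g (mul w.1.1 w.2.1) X))
          (US.and (US.of_prim (primrec_mem Primrec.snd (pL.comp Primrec.fst))) e3))) pJ
    refine (h1.or h2).of_eq fun X x => ?_
    unfold Gd
    rw [not_and_or]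
    apply or_congr
    · constructor
      · rintro ⟨p, hp, h | ⟨e, he, h⟩⟩ hall
        · exact (hall p hp).1 h
        · exact h ((hall p hp).2 e he)
      · intro h
        by_contra hcon
        apply h
        intro p hp
        refine ⟨fun hm => hcon ⟨p, hp, Or.inl hm⟩, fun e he => ?_⟩
        by_contra hr
        exact hcon ⟨p, hp, Or.inr ⟨e, he, hr⟩⟩
    · constructor
      · rintro hall ⟨p, hp, h1, h2⟩
        rcases hall p hp with h | ⟨y, hy, h⟩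
        · exact h h1
        · exact h2 y hy h
      · intro h p hp
        by_contra hcon
        rw [not_or, not_not] at hcon
        exact h ⟨p, hp, hcon.1, fun y hy hE => hcon.2 ⟨y, hy, hE⟩⟩

/-- one step of a certificate; `y` is `(s, J), L`; `(k, (s, L))` says that `L` is the list of
`g k X` at stage `s` -/
def Step (g : ι → (ℕ → Bool) → ℕ → Bool) (mul : ι → ι → ι)
    (IL : (ℕ → Bool) → ℕ × ℕ → List ι → Prop) (X : ℕ → Bool)
    (C : List (ι × (ℕ × List ℕ))) (f : ι × (ℕ × List ℕ))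
    (y : (ℕ × List (ι × List ℕ)) × List ℕ) : Prop :=
  f.2.1 = y.1.1 + 1 ∧ IL (g f.1 X) (y.1.1, lv y.1.1) (y.1.2.map Prod.fst) ∧
  (∀ p ∈ y.1.2, (mul f.1 p.1, (y.1.1, p.2)) ∈ C) ∧ (f.1, (y.1.1, y.2)) ∈ C ∧
  ((Gd g mul X (f.1, y.1) ∧ f.2.2 = el y.1.1 :: y.2) ∨
    (¬ Gd g mul X (f.1, y.1) ∧ f.2.2 = y.2))

def Closed (g : ι → (ℕ → Bool) → ℕ → Bool) (mul : ι → ι → ι)
    (IL : (ℕ → Bool) → ℕ × ℕ → List ι → Prop) (X : ℕ → Bool)
    (C : List (ι × (ℕ × List ℕ))) : Prop :=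
  ∀ f ∈ C, (f.2.1 = 0 ∧ f.2.2 = []) ∨ ∃ y, Step g mul IL X C f y

theorem us_Closed (cf : CF g) (pmul : Primrec₂ mul)
    (us : US fun X (x : (ℕ × ℕ) × List ι) => IL X x.1 x.2) :
    US fun X (C : List (ι × (ℕ × List ℕ))) => Closed g mul IL X C := by
  have pf : Primrec fun z : (List (ι × (ℕ × List ℕ)) × (ι × (ℕ × List ℕ))) ×
      ((ℕ × List (ι × List ℕ)) × List ℕ) => z.1.2 := Primrec.snd.comp Primrec.fst
  have pC : Primrec fun z : (List (ι × (ℕ × List ℕ)) × (ι × (ℕ × List ℕ))) ×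
      ((ℕ × List (ι × List ℕ)) × List ℕ) => z.1.1 := Primrec.fst.comp Primrec.fst
  have pk : Primrec fun z : (List (ι × (ℕ × List ℕ)) × (ι × (ℕ × List ℕ))) ×
      ((ℕ × List (ι × List ℕ)) × List ℕ) => z.1.2.1 := Primrec.fst.comp pf
  have ps : Primrec fun z : (List (ι × (ℕ × List ℕ)) × (ι × (ℕ × List ℕ))) ×
      ((ℕ × List (ι × List ℕ)) × List ℕ) => z.2.1.1 :=
    Primrec.fst.comp (Primrec.fst.comp Primrec.snd)
  have pJ : Primrec fun z : (List (ι × (ℕ × List ℕ)) × (ι × (ℕ × List ℕ))) ×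
      ((ℕ × List (ι × List ℕ)) × List ℕ) => z.2.1.2 :=
    Primrec.snd.comp (Primrec.fst.comp Primrec.snd)
  have pown : Primrec fun z : (List (ι × (ℕ × List ℕ)) × (ι × (ℕ × List ℕ))) ×
      ((ℕ × List (ι × List ℕ)) × List ℕ) => z.2.2 := Primrec.snd.comp Primrec.snd
  have pJ1 : Primrec fun z : (List (ι × (ℕ × List ℕ)) × (ι × (ℕ × List ℕ))) ×
      ((ℕ × List (ι × List ℕ)) × List ℕ) => z.2.1.2.map Prod.fst :=
    Primrec.list_map pJ (Primrec.fst.comp Primrec.snd).to₂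
  have hG := us_Gd (g := g) (mul := mul) cf pmul
  have pPT : Primrec fun z : (List (ι × (ℕ × List ℕ)) × (ι × (ℕ × List ℕ))) ×
      ((ℕ × List (ι × List ℕ)) × List ℕ) => (z.1.2.1, z.2.1) :=
    pk.pair (Primrec.fst.comp Primrec.snd)
  refine US.all_mem (f := fun C : List (ι × (ℕ × List ℕ)) => C)
    (p := fun X (C : List (ι × (ℕ × List ℕ))) (f : ι × (ℕ × List ℕ)) =>
    (f.2.1 = 0 ∧ f.2.2 = []) ∨ ∃ y, Step g mul IL X C f y) ?_ Primrec.id
  refine US.or (US.of_prim (PrimrecPred.and ?_ ?_)) (US.ex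
    (p := fun X (x : List (ι × (ℕ × List ℕ)) × (ι × (ℕ × List ℕ)))
      (y : (ℕ × List (ι × List ℕ)) × List ℕ) => Step g mul IL X x.1 x.2 y) ?_)
  · exact Primrec.eq.comp (Primrec.fst.comp (Primrec.snd.comp Primrec.snd)) (Primrec.const 0)
  · exact Primrec.eq.comp (Primrec.snd.comp (Primrec.snd.comp Primrec.snd)) (Primrec.const [])
  · refine US.and (US.of_prim ?_) (US.and ?_ (US.and ?_ (US.and (US.of_prim ?_)
      (US.or (US.and ?_ (US.of_prim ?_)) (US.and ?_ (US.of_prim ?_))))))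
    · exact Primrec.eq.comp (Primrec.fst.comp (Primrec.snd.comp pf)) (Primrec.succ.comp ps)
    · exact us_sub cf us
        (f := fun z : (List (ι × (ℕ × List ℕ)) × (ι × (ℕ × List ℕ))) ×
          ((ℕ × List (ι × List ℕ)) × List ℕ) => z.1.2.1)
        (h := fun z : (List (ι × (ℕ × List ℕ)) × (ι × (ℕ × List ℕ))) ×
          ((ℕ × List (ι × List ℕ)) × List ℕ) => ((z.2.1.1, lv z.2.1.1), z.2.1.2.map Prod.fst))
        pk ((ps.pair (primrec_lv.comp ps)).pair pJ1)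
    · refine US.all_mem (f := fun z : (List (ι × (ℕ × List ℕ)) × (ι × (ℕ × List ℕ))) ×
          ((ℕ × List (ι × List ℕ)) × List ℕ) => z.2.1.2)
        (p := fun X (z : (List (ι × (ℕ × List ℕ)) × (ι × (ℕ × List ℕ))) ×
          ((ℕ × List (ι × List ℕ)) × List ℕ)) (p : ι × List ℕ) =>
          (mul z.1.2.1 p.1, (z.2.1.1, p.2)) ∈ z.1.1) (US.of_prim ?_) pJ
      refine primrec_mem ?_ (pC.comp Primrec.fst)
      exact (pmul.comp (pk.comp Primrec.fst) (Primrec.fst.comp Primrec.snd)).pair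
        ((ps.comp Primrec.fst).pair (Primrec.snd.comp Primrec.snd))
    · exact primrec_mem (pk.pair (ps.pair pown)) pC
    · exact hG.1.comp pPT
    · exact Primrec.eq.comp (Primrec.snd.comp (Primrec.snd.comp pf))
        (Primrec.list_cons.comp (primrec_el.comp ps) pown)
    · exact hG.2.comp pPT
    · exact Primrec.eq.comp (Primrec.snd.comp (Primrec.snd.comp pf)) pown

theorem A_succ_pos {s : ℕ} {Y : ℕ → Bool} (h : Act Cl s Y) :
    A Cl (s + 1) Y = el s :: A Cl s Y := by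
  classical
  show (if Good Cl (A Cl s) s (lv s) (el s) Y then el s :: A Cl s Y else A Cl s Y) = _
  have h' : Good Cl (A Cl s) s (lv s) (el s) Y := h
  rw [if_pos h']

theorem A_succ_neg {s : ℕ} {Y : ℕ → Bool} (h : ¬ Act Cl s Y) :
    A Cl (s + 1) Y = A Cl s Y := by
  classical
  show (if Good Cl (A Cl s) s (lv s) (el s) Y then el s :: A Cl s Y else A Cl s Y) = _
  have h' : ¬ Good Cl (A Cl s) s (lv s) (el s) Y := h
  rw [if_neg h']

theorem Gd_iff (hG : GS g mul one IL Cl) {X : ℕ → Bool} {k : ι} {s : ℕ}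
    {J : List (ι × List ℕ)} (hI : IL (g k X) (s, lv s) (J.map Prod.fst))
    (hL : ∀ p ∈ J, A Cl s (g (mul k p.1) X) = p.2) :
    Gd g mul X (k, (s, J)) ↔ Act Cl s (g k X) := by
  have hmem : ∀ Y, Y ∈ Cl s (lv s) (g k X) ↔ ∃ p ∈ J, Y = g (mul k p.1) X := by
    intro Y
    rw [hG.sound _ _ _ _ hI]
    constructor
    · rintro ⟨i, hi, rfl⟩
      obtain ⟨p, hp, rfl⟩ := List.mem_map.1 hi
      exact ⟨p, hp, hG.g_mul _ _ _⟩
    · rintro ⟨p, hp, rfl⟩
      exact ⟨p.1, List.mem_map.2 ⟨p, hp, rfl⟩, (hG.g_mul _ _ _).symm⟩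
  unfold Gd Act Good
  simp only
  constructor
  · rintro ⟨h1, p, hp, h2, h3⟩
    refine ⟨?_, _, (hmem _).2 ⟨p, hp, rfl⟩, h2, ?_⟩
    · intro Y hY
      obtain ⟨q, hq, rfl⟩ := (hmem _).1 hY
      rw [hL q hq]
      exact h1 q hq
    · rw [hL p hp]
      exact h3
  · rintro ⟨h1, Y, hY, h2, h3⟩
    obtain ⟨p, hp, rfl⟩ := (hmem _).1 hY
    refine ⟨?_, p, hp, h2, ?_⟩
    · intro q hq
      have := h1 _ ((hmem _).2 ⟨q, hq, rfl⟩)
      rw [hL q hq] at this
      exact this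
    · rw [hL p hp] at h3
      exact h3

theorem Closed.sound (hG : GS g mul one IL Cl) {X : ℕ → Bool}
    {C : List (ι × (ℕ × List ℕ))} (hC : Closed g mul IL X C) :
    ∀ s, ∀ f ∈ C, f.2.1 = s → A Cl s (g f.1 X) = f.2.2 := by
  intro s
  induction s with
  | zero =>
    intro f hf hs
    rcases hC f hf with ⟨_, h2⟩ | ⟨y, h1, _⟩
    · rw [h2]; rfl
    · omega
  | succ s ih =>
    rintro ⟨k, ⟨s', L⟩⟩ hf hs
    rcases hC _ hf with ⟨h1, _⟩ | ⟨⟨⟨t, J⟩, L0⟩, h1, h2, h3, h0, h4⟩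
    · simp only at h1 hs
      omega
    · simp only at h1 h2 h3 h0 h4 hs ⊢
      have ht : t = s := by omega
      subst ht
      have hL : ∀ p ∈ J, A Cl t (g (mul k p.1) X) = p.2 := fun p hp => ih _ (h3 p hp) rfl
      have hown : A Cl t (g k X) = L0 := ih _ h0 rfl
      have hiff := Gd_iff hG h2 hL
      rcases h4 with ⟨h5, h6⟩ | ⟨h5, h6⟩
      · rw [A_succ_pos (hiff.1 h5), hown, h6]
      · rw [A_succ_neg (fun h => h5 (hiff.2 h)), hown, h6]

theorem Step.mono {X : ℕ → Bool} {C C' : List (ι × (ℕ × List ℕ))} (hCC : ∀ f ∈ C, f ∈ C')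
    {f : ι × (ℕ × List ℕ)} {y : (ℕ × List (ι × List ℕ)) × List ℕ}
    (h : Step g mul IL X C f y) : Step g mul IL X C' f y :=
  ⟨h.1, h.2.1, fun p hp => hCC _ (h.2.2.1 p hp), hCC _ h.2.2.2.1, h.2.2.2.2⟩

theorem exists_Closed (hG : GS g mul one IL Cl) (X : ℕ → Bool) (s : ℕ) :
    ∀ k : ι, ∃ C, Closed g mul IL X C ∧ (k, (s, A Cl s (g k X))) ∈ C := by
  classical
  induction s with
  | zero =>
    intro k
    refine ⟨[(k, (0, []))], ?_, ?_⟩
    · intro f hf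
      rw [List.mem_singleton] at hf
      subst hf
      exact Or.inl ⟨rfl, rfl⟩
    · rw [List.mem_singleton]
      rfl
  | succ s ih =>
    intro k
    obtain ⟨I, hI⟩ := hG.ex (g k X) s (lv s)
    choose D hD1 hD2 using ih
    obtain ⟨J, hJ⟩ : ∃ J : List (ι × List ℕ), J = I.map
      (fun i => (i, A Cl s (g (mul k i) X))) := ⟨_, rfl⟩
    have hJ1 : J.map Prod.fst = I := by
      rw [hJ, List.map_map]
      exact List.map_id I
    have hJ2 : ∀ p ∈ J, A Cl s (g (mul k p.1) X) = p.2 := by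
      intro p hp
      rw [hJ] at hp
      obtain ⟨i, _, rfl⟩ := List.mem_map.1 hp
      rfl
    have hI' : IL (g k X) (s, lv s) (J.map Prod.fst) := by rw [hJ1]; exact hI
    have hiff := Gd_iff hG hI' hJ2
    obtain ⟨f, hf⟩ : ∃ f : ι × (ℕ × List ℕ), f = (k, (s + 1, A Cl (s + 1) (g k X))) := ⟨_, rfl⟩
    refine ⟨f :: (D k ++ I.flatMap fun i => D (mul k i)), ?_, ?_⟩
    · intro q hq
      rcases List.mem_cons.1 hq with rfl | hq
      · right
        refine ⟨((s, J), A Cl s (g k X)), ?_, ?_, ?_, ?_, ?_⟩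
        · rw [hf]
        · rw [hf]; exact hI'
        · intro p hp
          rw [hf]
          refine List.mem_cons_of_mem _ (List.mem_append_right _ ?_)
          have h3 := hJ2 p hp
          rw [hJ] at hp
          obtain ⟨i, hi, rfl⟩ := List.mem_map.1 hp
          exact List.mem_flatMap.2 ⟨i, hi, hD2 (mul k i)⟩
        · rw [hf]
          exact List.mem_cons_of_mem _ (List.mem_append_left _ (hD2 k))
        · rw [hf]
          by_cases hA : Act Cl s (g k X)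
          · left
            exact ⟨hiff.2 hA, A_succ_pos hA⟩
          · right
            exact ⟨fun h => hA (hiff.1 h), A_succ_neg hA⟩
      · rcases List.mem_append.1 hq with hq | hq
        · rcases hD1 k q hq with h | ⟨y, hy⟩
          · exact Or.inl h
          · exact Or.inr ⟨y, hy.mono fun f' hf' =>
              List.mem_cons_of_mem _ (List.mem_append_left _ hf')⟩
        · obtain ⟨i, hi, hgi⟩ := List.mem_flatMap.1 hq
          rcases hD1 (mul k i) q hgi with h | ⟨y, hy⟩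
          · exact Or.inl h
          · exact Or.inr ⟨y, hy.mono fun f' hf' =>
              List.mem_cons_of_mem _ (List.mem_append_right _ (List.mem_flatMap.2 ⟨i, hi, hf'⟩))⟩
    · rw [hf]
      exact List.mem_cons_self

theorem us_A (hG : GS g mul one IL Cl) : US fun X (x : ℕ × List ℕ) => A Cl x.1 X = x.2 := by
  have h1 : US fun X (x : ℕ × List ℕ) => ∃ C : List (ι × (ℕ × List ℕ)),
      Closed g mul IL X C ∧ (one, x) ∈ C := by
    refine US.ex (p := fun X (x : ℕ × List ℕ) (C : List (ι × (ℕ × List ℕ))) =>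
      Closed g mul IL X C ∧ (one, x) ∈ C)
      (US.and ((us_Closed hG.cf hG.pmul hG.us).comp Primrec.snd) (US.of_prim ?_))
    exact primrec_mem ((Primrec.const one).pair Primrec.fst) Primrec.snd
  refine h1.of_eq fun X x => ?_
  obtain ⟨s, L⟩ := x
  constructor
  · rintro ⟨C, h2, h3⟩
    have := h2.sound hG s _ h3 rfl
    simp only [hG.g_one] at this
    exact this
  · intro h
    simp only at h
    obtain ⟨C, h2, h3⟩ := exists_Closed hG X s one
    rw [hG.g_one, h] at h3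
    exact ⟨C, h2, h3⟩

theorem us_memA (hG : GS g mul one IL Cl) :
    (US fun X (x : ℕ × ℕ) => x.1 ∈ A Cl x.2 X) ∧
      US fun X (x : ℕ × ℕ) => ¬ x.1 ∈ A Cl x.2 X := by
  have hi : Primrec fun z : (ℕ × ℕ) × List ℕ => (z.1.2, z.2) :=
    (Primrec.snd.comp Primrec.fst).pair Primrec.snd
  have hm : PrimrecPred fun z : (ℕ × ℕ) × List ℕ => z.1.1 ∈ z.2 :=
    primrec_mem (Primrec.fst.comp Primrec.fst) Primrec.snd
  constructor
  · refine (US.ex (p := fun X (x : ℕ × ℕ) (L : List ℕ) => A Cl x.2 X = L ∧ x.1 ∈ L)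
      (US.and ((us_A hG).comp hi) (US.of_prim hm))).of_eq fun X x => ?_
    simp
  · refine (US.ex (p := fun X (x : ℕ × ℕ) (L : List ℕ) => A Cl x.2 X = L ∧ ¬ x.1 ∈ L)
      (US.and ((us_A hG).comp hi) (US.of_prim (PrimrecPred.not hm)))).of_eq fun X x => ?_
    simp

theorem us_WB (hG : GS g mul one IL Cl) : US fun X (m : ℕ) => WB Cl X m = true := by
  have pm : Primrec fun x : ℕ => x % 2 := Primrec.nat_mod.comp Primrec.id (Primrec.const 2)
  have pd : Primrec fun x : ℕ => x / 2 := Primrec.nat_div.comp Primrec.id (Primrec.const 2)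
  have h1 : US fun X (m : ℕ) => m % 2 = 0 ∧ X (m / 2) = true :=
    US.and (US.of_prim (Primrec.eq.comp pm (Primrec.const 0)))
      (us_query.comp (f := fun m : ℕ => (m / 2, true)) (pd.pair (Primrec.const true)))
  have h2 : US fun X (m : ℕ) => ¬ m % 2 = 0 ∧ ∃ s, m / 2 ∈ A Cl s X :=
    US.and (US.of_prim (PrimrecPred.not (Primrec.eq.comp pm (Primrec.const 0))))
      (US.ex (p := fun X (m : ℕ) (s : ℕ) => m / 2 ∈ A Cl s X)
        ((us_memA hG).1.comp (f := fun y : ℕ × ℕ => (y.1 / 2, y.2))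
          ((pd.comp Primrec.fst).pair Primrec.snd)))
  refine (h1.or h2).of_eq fun X m => ?_
  unfold WB
  by_cases h : m % 2 = 0
  · simp [h]
  · by_cases h2 : ∃ s, m / 2 ∈ A Cl s X
    · simp [h, h2]
    · simp [h, h2]

theorem WB_le_jump (hG : GS g mul one IL Cl) (X : ℕ → Bool) : TLe (WB Cl X) (jump X) := by
  have h0 : SI X fun m : ℕ => WB Cl X m = true := (us_WB hG).to_si X
  rw [tLe_iff_SI]
  obtain ⟨h2, h3⟩ := h0.decide_jump
  have h4 : SI (jump X) fun x : ℕ × Bool =>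
      (WB Cl X x.1 = true ∧ x.2 = true) ∨ (¬ WB Cl X x.1 = true ∧ x.2 = false) := by
    refine SI.or (SI.and (h2.comp Primrec.fst) (SI.of_prim ?_))
      (SI.and (h3.comp (f := fun x : ℕ × Bool => x.1) Primrec.fst) (SI.of_prim ?_))
    · exact Primrec.eq.comp Primrec.snd (Primrec.const true)
    · exact Primrec.eq.comp Primrec.snd (Primrec.const false)
  refine h4.of_eq fun x => ?_
  rcases x with ⟨n, b⟩
  cases b <;> simp

theorem low (hG : GS g mul one IL Cl) (hC : CS Cl) (X : ℕ → Bool) :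
    TLe (jump (WB Cl X)) (jump X) := by
  have hi : Primrec fun z : (ℕ × ℕ) × List ℕ => (z.1.2, z.2) :=
    (Primrec.snd.comp Primrec.fst).pair Primrec.snd
  have h1 : US fun X (x : ℕ × ℕ) => En x.2 x.1 x.1 (jn X (A Cl x.2 X)) := by
    refine (US.ex (p := fun X (x : ℕ × ℕ) (L : List ℕ) => A Cl x.2 X = L ∧
      En x.2 x.1 x.1 (jn X L)) (US.and ((us_A hG).comp hi) us_EnJ)).of_eq fun X x => ?_
    simp
  have h2 : US fun X (x : ℕ × ℕ) => ¬ En x.2 x.1 x.1 (jn X (A Cl x.2 X)) := by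
    refine (US.ex (p := fun X (x : ℕ × ℕ) (L : List ℕ) => A Cl x.2 X = L ∧
      ¬ En x.2 x.1 x.1 (jn X L)) (US.and ((us_A hG).comp hi) us_nEnJ)).of_eq fun X x => ?_
    simp
  exact tLe_jump_of_limit (p := fun e s => En s e e (jn X (A Cl s X))) (h1.to_si X)
    (h2.to_si X) (fun e he => jump_true X e he) (fun e he => jump_false hC X e he)

/-- invariance -/
theorem WB_inv (hG : GS g mul one IL Cl) (hC : CS Cl) {X Y : ℕ → Bool} (l1 : TLe Y X)
    (l2 : TLe X Y) {N : ℕ} {M : ℕ → ℕ → Prop} (hM : SI X fun x : ℕ × ℕ => M x.1 x.2)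
    (hM1 : ∀ n ≥ N, ∃ m, M n m) (hM2 : ∀ n ≥ N, ∀ m, M n m → ∀ s ≥ m, Cl s n X = Cl s n Y) :
    TLe (WB Cl Y) (WB Cl X) ∧ TLe (WB Cl X) (WB Cl Y) := by
  have hA := us_memA hG
  have w1 : TLe X (WB Cl X) := le_WB X
  have w2 : TLe Y (WB Cl Y) := le_WB Y
  constructor
  · have t1 : TLe Y (WB Cl X) := TuringReducible.trans l1 w1
    exact WB_le hC t1 (hM.trans w1) hM1 hM2
      ((hA.1.to_si X).trans w1) ((hA.2.to_si X).trans w1)
      ((hA.1.to_si Y).trans t1) ((hA.2.to_si Y).trans t1)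
  · have t2 : TLe X (WB Cl Y) := TuringReducible.trans l2 w2
    exact WB_le hC t2 (hM.trans t2) hM1 (fun n hn m hm s hs => (hM2 n hn m hm s hs).symm)
      ((hA.1.to_si Y).trans w2) ((hA.2.to_si Y).trans w2)
      ((hA.1.to_si X).trans t2) ((hA.2.to_si X).trans t2)

theorem exists_post (hG : GS g mul one IL Cl) (hC : CS Cl) :
    ∃ e : ℕ, PostIndex e ∧ ∀ X, chr (WE X e) = WB Cl X := by
  obtain ⟨e, he⟩ := (us_WB hG).exists_index
  have hch : ∀ X, chr (WE X e) = WB Cl X := by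
    intro X
    rw [he X]
    funext m
    simp [chr]
  refine ⟨e, fun X => ?_, hch⟩
  rw [hch X]
  exact ⟨le_WB X, not_WB_le hC X, WB_le_jump hG X,
    fun h => not_jump_le _ (TuringReducible.trans (low hG hC X) h), low hG hC X⟩

end

end Pool.Agent.U35.ZV
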