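import Pool.Agent.U35.ZV.IL
import Mathlib.GroupTheory.SpecificGroups.Cyclic.Basic
import Mathlib.GroupTheory.Index

set_option autoImplicit false

/-!
Solutions to Post's problem which are invariant under a virtually cyclic group of computable
homeomorphisms.
-/

namespace Pool.Agent.U35.ZV

open Encodable Pool.Agent.Helper227 Pool.Agent.U35.ZA
open Pool.Agent.H548R2.Post (chr)
open Pool.Agent.H869R3.RT (PostIndex)

section
variable {τ : Equiv.Perm (ℕ → Bool)} {F : ℕ → ℕ → (ℕ → Bool) → ℕ → ℕ → Prop}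

/-- the classes of `a` and `b` agree at almost all levels, from a stage on which is found with the
oracle `Z` -/
def RR (τ : Equiv.Perm (ℕ → Bool)) (F : ℕ → ℕ → (ℕ → Bool) → ℕ → ℕ → Prop)
    (Z a b : ℕ → Bool) : Prop :=
  ∃ (N : ℕ) (M : ℕ → ℕ → Prop), (SI Z fun x : ℕ × ℕ => M x.1 x.2) ∧
    (∀ n m m', m ≤ m' → M n m → M n m') ∧ (∀ n ≥ N, ∃ m, M n m) ∧
    ∀ n ≥ N, ∀ m, M n m → ∀ s ≥ m, Cl τ F s n a = Cl τ F s n b

theorem RR.refl (Z a : ℕ → Bool) : RR τ F Z a a :=
  ⟨0, fun _ _ => True, SI.of_prim (PP.const True), fun _ _ _ _ _ => trivial,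
    fun _ _ => ⟨0, trivial⟩, fun _ _ _ _ _ _ => rfl⟩

theorem RR.symm {Z a b : ℕ → Bool} (h : RR τ F Z a b) : RR τ F Z b a := by
  obtain ⟨N, M, h1, h2, h3, h4⟩ := h
  exact ⟨N, M, h1, h2, h3, fun n hn m hm s hs => (h4 n hn m hm s hs).symm⟩

theorem RR_fin {K : Type} [Finite K] {Z : ℕ → Bool} {a b : K → ℕ → Bool}
    (h : ∀ k, RR τ F Z (a k) (b k)) :
    ∃ (N : ℕ) (M : ℕ → ℕ → Prop), (SI Z fun x : ℕ × ℕ => M x.1 x.2) ∧
      (∀ n m m', m ≤ m' → M n m → M n m') ∧ (∀ n ≥ N, ∃ m, M n m) ∧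
      ∀ n ≥ N, ∀ m, M n m → ∀ s ≥ m, ∀ k, Cl τ F s n (a k) = Cl τ F s n (b k) := by
  classical
  have key : ∀ S : Finset K, ∃ (N : ℕ) (M : ℕ → ℕ → Prop), (SI Z fun x : ℕ × ℕ => M x.1 x.2) ∧
      (∀ n m m', m ≤ m' → M n m → M n m') ∧ (∀ n ≥ N, ∃ m, M n m) ∧
      ∀ n ≥ N, ∀ m, M n m → ∀ s ≥ m, ∀ k ∈ S, Cl τ F s n (a k) = Cl τ F s n (b k) := by
    intro S
    induction S using Finset.induction_on with
    | empty => exact ⟨0, fun _ _ => True, SI.of_prim (PP.const True), fun _ _ _ _ _ => trivial,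
        fun _ _ => ⟨0, trivial⟩, fun _ _ _ _ _ _ _ hk => absurd hk (Finset.notMem_empty _)⟩
    | insert c S _ ih =>
      obtain ⟨N, M, h1, h2, h3, h4⟩ := ih
      obtain ⟨N', M', h1', h2', h3', h4'⟩ := h c
      refine ⟨max N N', fun n m => M n m ∧ M' n m, h1.and h1', ?_, ?_, ?_⟩
      · intro n m m' hm hM
        exact ⟨h2 n m m' hm hM.1, h2' n m m' hm hM.2⟩
      · intro n hn
        obtain ⟨m, hm⟩ := h3 n (by omega)
        obtain ⟨m', hm'⟩ := h3' n (by omega)
        exact ⟨max m m', h2 _ _ _ (le_max_left _ _) hm, h2' _ _ _ (le_max_right _ _) hm'⟩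
      · intro n hn m hm s hs k hk
        rcases Finset.mem_insert.1 hk with rfl | hk
        · exact h4' n (by omega) m hm.2 s hs
        · exact h4 n (by omega) m hm.1 s hs k hk
  have := Fintype.ofFinite K
  obtain ⟨N, M, h1, h2, h3, h4⟩ := key Finset.univ
  exact ⟨N, M, h1, h2, h3, fun n hn m hm s hs k => h4 n hn m hm s hs k (Finset.mem_univ k)⟩

theorem RR.trans {Z a b c : ℕ → Bool} (h : RR τ F Z a b) (h' : RR τ F Z b c) :
    RR τ F Z a c := by
  obtain ⟨N, M, h1, h2, h3, h4⟩ := RR_fin (K := Bool) (a := fun k => if k then a else b)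
    (b := fun k => if k then b else c) (Z := Z) (τ := τ) (F := F) (by
      intro k
      cases k
      · exact h'
      · exact h)
  refine ⟨N, M, h1, h2, h3, fun n hn m hm s hs => ?_⟩
  have e1 := h4 n hn m hm s hs true
  have e2 := h4 n hn m hm s hs false
  simp only [if_true] at e1
  simp only [Bool.false_eq_true, if_false] at e2
  exact e1.trans e2

theorem RR_succ (hc : CH τ) (hF : FB τ F) {X Z : ℕ → Bool} (hZ : TLe X Z) :
    RR τ F Z X (sh τ 1 0 X) := by
  obtain ⟨N, M, hM, hM1, hM2⟩ := modulus hc hF X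
  refine ⟨N, fun n m => ∃ m', m' < m + 1 ∧ M n m', ?_, ?_, ?_, ?_⟩
  · have h1 : SI Z fun x : ℕ × ℕ => M x.1 x.2 := hM.trans hZ
    refine SI.ex (p := fun (x : ℕ × ℕ) (m' : ℕ) => m' < x.2 + 1 ∧ M x.1 m') (SI.and
      (SI.of_prim ?_) (h1.comp (f := fun y : (ℕ × ℕ) × ℕ => (y.1.1, y.2))
        ((Primrec.fst.comp Primrec.fst).pair Primrec.snd)))
    exact Primrec.nat_lt.comp Primrec.snd (Primrec.succ.comp (Primrec.snd.comp Primrec.fst))
  · rintro n m m' hm ⟨m1, h1, h2⟩
    exact ⟨m1, by omega, h2⟩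
  · intro n hn
    obtain ⟨m, hm⟩ := hM1 n hn
    exact ⟨m, m, by omega, hm⟩
  · rintro n hn m ⟨m1, h1, h2⟩ s hs
    exact hM2 n hn m1 h2 s (by omega)

theorem RR_nat (hc : CH τ) (hF : FB τ F) {X Z : ℕ → Bool} (hZ : TLe X Z) (k : ℕ) :
    RR τ F Z X (sh τ k 0 X) := by
  induction k with
  | zero =>
    rw [sh_zero']
    exact RR.refl _ _
  | succ k ih =>
    have e : sh τ (k + 1) 0 X = sh τ 1 0 (sh τ k 0 X) := by rw [sh_sh']
    rw [e]
    exact ih.trans (RR_succ hc hF (TuringReducible.trans (sh_le hc k 0 X) hZ))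

theorem RR_int (hc : CH τ) (hF : FB τ F) {X Z : ℕ → Bool} (hZ : TLe X Z) (i : ℤ) :
    RR τ F Z X (O τ i X) := by
  rcases le_total 0 i with h | h
  · obtain ⟨k, hk⟩ := Int.eq_ofNat_of_zero_le h
    have e : O τ i X = sh τ k 0 X := by
      unfold sh
      rw [hk]
      simp
    rw [e]
    exact RR_nat hc hF hZ k
  · obtain ⟨k, hk⟩ := Int.eq_ofNat_of_zero_le (show 0 ≤ -i by omega)
    have e : sh τ k 0 (O τ i X) = X := by
      unfold sh
      rw [O_add]
      have : ((k : ℤ) - ((0 : ℕ) : ℤ) + i) = 0 := by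
        push_cast
        omega
      rw [this]
      exact O_zero τ X
    have e2 : O τ i X = sh τ 0 k X := by
      unfold sh
      congr 1
      push_cast
      omega
    have h1 : TLe (O τ i X) Z := by
      rw [e2]
      exact TuringReducible.trans (sh_le hc 0 k X) hZ
    have h2 := RR_nat hc hF h1 k
    rw [e] at h2
    exact h2.symm

theorem cf_le {β : Type} [Primcodable β] {f : β → (ℕ → Bool) → ℕ → Bool} (hf : CF f) (j : β)
    (X : ℕ → Bool) : TLe (f j X) X := by
  rw [tLe_iff_SI]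
  exact (us_sub hf us_query (f := fun _ : ℕ × Bool => j) (h := fun x : ℕ × Bool => x)
    (Primrec.const j) Primrec.id).to_si X

theorem inv_of {J : Type} [Primcodable J] [Fintype J] {f : J → (ℕ → Bool) → ℕ → Bool} {j0 : J}
    {ε : J → Bool} {m : J × J → J} {w : J × J → ℕ × ℕ} (h : VZ τ f j0 ε m w) (hF : FB τ F)
    {X X' : ℕ → Bool} (l1 : TLe X' X) (l2 : TLe X X')
    (h1 : ∀ j, ∃ (i : J) (z : ℤ), f j X' = O τ z (f i X))
    (h2 : ∀ i, ∃ (j : J) (z : ℤ), f i X = O τ z (f j X')) :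
    TLe (WB (Cv τ F f) X') (WB (Cv τ F f) X) ∧ TLe (WB (Cv τ F f) X) (WB (Cv τ F f) X') := by
  choose i1 z1 e1 using h1
  choose j2 z2 e2 using h2
  obtain ⟨N, M, hM, _, hM1, hM2⟩ := RR_fin (K := J ⊕ J) (Z := X) (τ := τ) (F := F)
    (a := fun k => Sum.elim (fun j => f (i1 j) X) (fun i => f i X) k)
    (b := fun k => Sum.elim (fun j => f j X') (fun i => f (j2 i) X') k) (by
      intro k
      rcases k with j | i
      · show RR τ F X (f (i1 j) X) (f j X')
        rw [e1 j]
        exact RR_int h.hc hF (cf_le h.hf _ X) _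
      · show RR τ F X (f i X) (f (j2 i) X')
        have e : f (j2 i) X' = O τ (-z2 i) (f i X) := by
          rw [e2 i, O_add, neg_add_cancel]
          exact (O_zero τ _).symm
        rw [e]
        exact RR_int h.hc hF (cf_le h.hf _ X) _)
  refine WB_inv (GSv h hF) (Cv_CS hF h.one) l1 l2 hM hM1 fun n hn k hk s hs => ?_
  have h3 := hM2 n hn k hk s hs
  exact DD_congr (fun i => ⟨j2 i, h3 (Sum.inr i)⟩) fun j => ⟨i1 j, (h3 (Sum.inl j)).symm⟩

end

/-- finitely many representatives -/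
theorem exists_rep {G : Type*} [Group G] (t : G) (ht : (Subgroup.zpowers t).FiniteIndex) :
    ∃ (c : G) (r : ℕ) (rep : Fin (r + 1) → G), rep 0 = 1 ∧
      (∀ x : G, x * c * x⁻¹ = c ∨ x * c * x⁻¹ = c⁻¹) ∧
      ∀ x : G, ∃ (z : ℤ) (j : Fin (r + 1)), x = c ^ z * rep j := by
  classical
  obtain ⟨N, hN⟩ : ∃ N : Subgroup G, N = (Subgroup.zpowers t).normalCore := ⟨_, rfl⟩
  have hnor : N.Normal := by
    rw [hN]
    exact Subgroup.normalCore_normal _
  have hfi : N.FiniteIndex := by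
    rw [hN]
    exact Subgroup.finiteIndex_normalCore _
  have hle : N ≤ Subgroup.zpowers t := by
    rw [hN]
    exact Subgroup.normalCore_le _
  have hcyc : IsCyclic N := Subgroup.isCyclic_of_le hle
  obtain ⟨c, hc⟩ := (Subgroup.isCyclic_iff_exists_zpowers_eq_top N).1 hcyc
  have hfin : Finite (G ⧸ N) := Subgroup.finite_quotient_of_finiteIndex
  by_cases hord : IsOfFinOrder c
  · have hNf : Finite N := by
      rw [← hc]
      exact (finite_zpowers.2 hord)
    have hG : Finite G := by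
      have : Finite ((G ⧸ N) × N) := inferInstance
      exact Finite.of_equiv _ (Subgroup.groupEquivQuotientProdSubgroup (s := N)).symm
    refine ⟨1, Nat.card G, Fin.cons 1 fun i => (Finite.equivFin G).symm i, rfl, ?_, ?_⟩
    · intro x
      left
      simp
    · intro x
      exact ⟨0, ((Finite.equivFin G) x).succ, by simp⟩
  · have hinj := injective_zpow_iff_not_isOfFinOrder.2 hord
    obtain ⟨o, ho⟩ : ∃ o : G ⧸ N → G, ∀ q, (o q : G ⧸ N) = q :=
      ⟨Quotient.out, QuotientGroup.out_eq'⟩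
    refine ⟨c, Nat.card (G ⧸ N), Fin.cons 1 fun i => o ((Finite.equivFin (G ⧸ N)).symm i), rfl,
      ?_, ?_⟩
    · intro x
      have hcN : c ∈ N := by
        rw [← hc]
        exact Subgroup.mem_zpowers c
      have m1 : x * c * x⁻¹ ∈ N := hnor.conj_mem c hcN x
      have m2 : x⁻¹ * c * x⁻¹⁻¹ ∈ N := hnor.conj_mem c hcN x⁻¹
      rw [← hc] at m1 m2
      obtain ⟨a, ha⟩ := Subgroup.mem_zpowers_iff.1 m1
      obtain ⟨b, hb⟩ := Subgroup.mem_zpowers_iff.1 m2
      have e : c ^ (a * b) = c ^ (1 : ℤ) := by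
        rw [zpow_mul, ha, conj_zpow, hb]
        group
      have e2 : a * b = 1 := hinj e
      rcases Int.eq_one_or_neg_one_of_mul_eq_one e2 with h | h
      · left
        rw [← ha, h, zpow_one]
      · right
        rw [← ha, h, zpow_neg, zpow_one]
    · intro x
      have h1 : x * (o (x : G ⧸ N))⁻¹ ∈ N := by
        have h2 : (o (x : G ⧸ N))⁻¹ * x ∈ N := by
          rw [← QuotientGroup.eq]
          exact ho _
        exact hnor.mem_comm h2
      have h3 : x * (o (x : G ⧸ N))⁻¹ ∈ Subgroup.zpowers c := hc.symm ▸ h1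
      obtain ⟨z, hz⟩ := Subgroup.mem_zpowers_iff.1 h3
      refine ⟨z, ((Finite.equivFin (G ⧸ N)) (x : G ⧸ N)).succ, ?_⟩
      rw [hz]
      simp only [Fin.cons_succ, Equiv.symm_apply_apply]
      exact (inv_mul_cancel_right x _).symm

theorem CH_of_cf {τ : Equiv.Perm (ℕ → Bool)} (h : CF fun (_ : Unit) X => τ X)
    (h' : CF fun (_ : Unit) X => τ.symm X) : CH τ := by
  obtain ⟨V, G, hV, hG, e⟩ := h
  obtain ⟨V', G', hV', hG', e'⟩ := h'
  have c1 := CF.iterate (T := fun X => τ X) (V := fun m => V ((), m))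
    (G := fun x => G (((), x.1), x.2))
    (hV.comp ((Computable.const ()).pair Computable.id))
    (hG.comp (((Computable.const ()).pair Computable.fst).pair Computable.snd))
    fun X m => e () X m
  have c2 := CF.iterate (T := fun X => τ.symm X) (V := fun m => V' ((), m))
    (G := fun x => G' (((), x.1), x.2))
    (hV'.comp ((Computable.const ()).pair Computable.id))
    (hG'.comp (((Computable.const ()).pair Computable.fst).pair Computable.snd))
    fun X m => e' () X m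
  have c := c1.comp c2
  unfold CH
  have : (fun (x : ℕ × ℕ) X => sh τ x.1 x.2 X) = fun (x : ℕ × ℕ) X =>
      (fun (k : ℕ) X => (fun X => τ X)^[k] X) x.1
        ((fun (k : ℕ) X => (fun X => τ.symm X)^[k] X) x.2 X) := by
    funext x X
    exact sh_eq_iter τ x.1 x.2 X
  rw [this]
  exact c

/-- the main theorem -/
theorem main_grp {G : Type*} [Group G] [MulAction G (ℕ → Bool)] (t : G)
    (ht : (Subgroup.zpowers t).FiniteIndex)
    (hcf : ∀ x : G, CF fun (_ : Unit) (X : ℕ → Bool) => x • X) :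
    ∃ e : ℕ, PostIndex e ∧ ∀ (x : G) (X : ℕ → Bool),
      TLe (chr (WE X e)) (chr (WE (x • X) e)) ∧ TLe (chr (WE (x • X) e)) (chr (WE X e)) := by
  classical
  obtain ⟨c, r, rep, h0, hconj, hrep⟩ := exists_rep t ht
  obtain ⟨τ, hτ⟩ : ∃ τ : Equiv.Perm (ℕ → Bool), τ = MulAction.toPermHom G (ℕ → Bool) c :=
    ⟨_, rfl⟩
  have hO : ∀ (z : ℤ) (X : ℕ → Bool), O τ z X = c ^ z • X := by
    intro z X
    unfold O
    rw [hτ, ← map_zpow]
    rfl
  have hc : CH τ := by
    refine CH_of_cf ?_ ?_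
    · rw [hτ]
      exact hcf c
    · have e : (fun (_ : Unit) (X : ℕ → Bool) => τ.symm X) = fun (_ : Unit) X => c⁻¹ • X := by
        funext _ X
        rw [hτ]
        rfl
      rw [e]
      exact hcf c⁻¹
  obtain ⟨F, hF⟩ := exists_FB hc
  have hconjz : ∀ (x : G) (z : ℤ), (x * c * x⁻¹ = c → x * c ^ z = c ^ z * x) ∧
      (x * c * x⁻¹ = c⁻¹ → x * c ^ z = c ^ (-z) * x) := by
    intro x z
    have e : x * c ^ z = (x * c * x⁻¹) ^ z * x := by
      rw [conj_zpow]
      group
    constructor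
    · intro h
      rw [e, h]
    · intro h
      rw [e, h, inv_zpow']
  have hm : ∀ p : Fin (r + 1) × Fin (r + 1), ∃ (z : ℤ) (j : Fin (r + 1)),
      rep p.1 * rep p.2 = c ^ z * rep j := fun p => hrep _
  choose z mt hz using hm
  have hV : VZ τ (fun (j : Fin (r + 1)) X => rep j • X) 0
      (fun i => decide (rep i * c * (rep i)⁻¹ = c)) mt
      (fun p => ((z p).toNat, (-z p).toNat)) := by
    refine ⟨hc, CF.cases 0 _ fun j => hcf (rep j), ?_, ?_, ?_⟩
    · intro X
      rw [h0, one_smul]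
    · intro i k l X
      by_cases hd : rep i * c * (rep i)⁻¹ = c
      · simp only [hd, decide_true, cond_true]
        unfold sh
        rw [hO, hO, smul_smul, smul_smul, (hconjz (rep i) _).1 hd]
      · have hd' := (hconj (rep i)).resolve_left hd
        simp only [hd, decide_false, cond_false]
        unfold sh
        rw [hO, hO, smul_smul, smul_smul, (hconjz (rep i) _).2 hd']
        congr 3
        ring
    · intro i j X
      unfold sh
      rw [hO, smul_smul, smul_smul, hz (i, j)]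
      congr 3
      simp only
      omega
  obtain ⟨e, he, hch⟩ := exists_post (GSv hV hF) (Cv_CS hF hV.one)
  refine ⟨e, he, fun x X => ?_⟩
  have l1 : TLe (x • X) X := cf_le (hcf x) () X
  have l2 : TLe X (x • X) := by
    have := cf_le (hcf x⁻¹) () (x • X)
    simpa using this
  have key := inv_of hV hF (X := X) (X' := x • X) l1 l2 ?_ ?_
  · rw [hch X, hch (x • X)]
    exact ⟨key.2, key.1⟩
  · intro j
    obtain ⟨y, i, hy⟩ := hrep (rep j * x)
    refine ⟨i, y, ?_⟩
    rw [hO, smul_smul, smul_smul, hy]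
  · intro i
    obtain ⟨y, j, hy⟩ := hrep (rep i * x⁻¹)
    refine ⟨j, y, ?_⟩
    rw [hO, smul_smul, smul_smul, ← hy, inv_mul_cancel_right]

end Pool.Agent.U35.ZV
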