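import Pool.Agent.U35.ZV.VC

set_option autoImplicit false

/-!
The lists of indices of the classes for a group of homeomorphisms.
-/

namespace Pool.Agent.U35.ZV

open Encodable Pool.Agent.Helper227 Pool.Agent.U35.ZA

/-- all elements of a finite type -/
noncomputable def JL (J : Type) [Fintype J] : List J := Finset.univ.toList

theorem mem_JL {J : Type} [Fintype J] (j : J) : j ∈ JL J := by simp [JL]

section
variable {J : Type} [Primcodable J] [Fintype J]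

/-- `x` is `(s, q), (j, p)` -/
def CD (τ : Equiv.Perm (ℕ → Bool)) (f : J → (ℕ → Bool) → ℕ → Bool) (ε : J → Bool)
    (m : J × J → J) (w : J × J → ℕ × ℕ) (X : ℕ → Bool)
    (x : (ℕ × (J × (ℕ × ℕ))) × (J × (J × (ℕ × ℕ)))) : Prop :=
  ∃ i < x.2.2.2.1 + x.2.2.2.2 + 1, pre (gg τ f (mm ε m w x.1.2 (x.2.1, (0, 0))) X) x.1.1 =
    pre (gg τ f (x.2.2.1, (i, x.2.2.2.1)) X) x.1.1

/-- `x` is `(s, W), q` -/
def GQ (τ : Equiv.Perm (ℕ → Bool)) (f : J → (ℕ → Bool) → ℕ → Bool) (ε : J → Bool)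
    (m : J × J → J) (w : J × J → ℕ × ℕ) (X : ℕ → Bool)
    (x : (ℕ × List (J × (ℕ × ℕ))) × (J × (ℕ × ℕ))) : Prop :=
  (∀ j ∈ JL J, ∃ p ∈ x.1.2, CD τ f ε m w X ((x.1.1, x.2), (j, p))) ∧
    ∀ p ∈ x.1.2, ∃ j ∈ JL J, CD τ f ε m w X ((x.1.1, x.2), (j, p))

/-- the lists of indices -/
def ILv (τ : Equiv.Perm (ℕ → Bool)) (F : ℕ → ℕ → (ℕ → Bool) → ℕ → ℕ → Prop)
    (f : J → (ℕ → Bool) → ℕ → Bool) (ε : J → Bool) (m : J × J → J) (w : J × J → ℕ × ℕ)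
    (X : ℕ → Bool) (x : ℕ × ℕ) (L : List (J × (ℕ × ℕ))) : Prop :=
  ∃ W : List (J × (ℕ × ℕ)), (∀ p ∈ W, AB τ F x.1 x.2 (f p.1 X) p.2.1 p.2.2) ∧
    (∀ j ∈ JL J, ∃ p ∈ W, p.1 = j) ∧
    (∀ q ∈ L, (∃ p ∈ W, q.1 = p.1 ∧ q.2.2 = p.2.1 ∧ q.2.1 < p.2.1 + p.2.2 + 1) ∧
      GQ τ f ε m w X ((x.1, W), q)) ∧
    ∀ p ∈ W, ∀ i < p.2.1 + p.2.2 + 1, ¬ GQ τ f ε m w X ((x.1, W), (p.1, (i, p.2.1))) ∨
      (p.1, (i, p.2.1)) ∈ L

theorem ud_CD {τ : Equiv.Perm (ℕ → Bool)} {f : J → (ℕ → Bool) → ℕ → Bool} (hc : CH τ)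
    (hf : CF f) (ε : J → Bool) (m : J × J → J) (w : J × J → ℕ × ℕ) :
    UD fun X (x : (ℕ × (J × (ℕ × ℕ))) × (J × (J × (ℕ × ℕ)))) => CD τ f ε m w X x := by
  have p2 : Primrec fun z : ((ℕ × (J × (ℕ × ℕ))) × (J × (J × (ℕ × ℕ)))) × ℕ => z.1.2.2 :=
    Primrec.snd.comp (Primrec.snd.comp Primrec.fst)
  refine UD.ex_lt (p := fun X (x : (ℕ × (J × (ℕ × ℕ))) × (J × (J × (ℕ × ℕ)))) (i : ℕ) =>
    pre (gg τ f (mm ε m w x.1.2 (x.2.1, (0, 0))) X) x.1.1 =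
    pre (gg τ f (x.2.2.1, (i, x.2.2.2.1)) X) x.1.1) ?_ ?_
  · refine (ud_pre (cf_gg hc hf)).comp
      (f := fun z : ((ℕ × (J × (ℕ × ℕ))) × (J × (J × (ℕ × ℕ)))) × ℕ =>
        ((mm ε m w z.1.1.2 (z.1.2.1, (0, 0)), (z.1.2.2.1, (z.2, z.1.2.2.2.1))), z.1.1.1)) ?_
    refine Primrec.pair (Primrec.pair ?_ ?_) (Primrec.fst.comp (Primrec.fst.comp Primrec.fst))
    · exact (pmm ε m w).comp (Primrec.snd.comp (Primrec.fst.comp Primrec.fst))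
        ((Primrec.fst.comp (Primrec.snd.comp Primrec.fst)).pair (Primrec.const (0, 0)))
    · exact (Primrec.fst.comp p2).pair (Primrec.snd.pair (Primrec.fst.comp (Primrec.snd.comp p2)))
  · have p3 : Primrec fun z : (ℕ × (J × (ℕ × ℕ))) × (J × (J × (ℕ × ℕ))) => z.2.2.2 :=
      Primrec.snd.comp (Primrec.snd.comp Primrec.snd)
    exact Primrec.succ.comp (Primrec.nat_add.comp (Primrec.fst.comp p3) (Primrec.snd.comp p3))

theorem ud_GQ {τ : Equiv.Perm (ℕ → Bool)} {f : J → (ℕ → Bool) → ℕ → Bool} (hc : CH τ)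
    (hf : CF f) (ε : J → Bool) (m : J × J → J) (w : J × J → ℕ × ℕ) :
    UD fun X (x : (ℕ × List (J × (ℕ × ℕ))) × (J × (ℕ × ℕ))) => GQ τ f ε m w X x := by
  have hCD := ud_CD hc hf ε m w
  have pW : Primrec fun x : (ℕ × List (J × (ℕ × ℕ))) × (J × (ℕ × ℕ)) => x.1.2 :=
    Primrec.snd.comp Primrec.fst
  have psq : Primrec fun x : (ℕ × List (J × (ℕ × ℕ))) × (J × (ℕ × ℕ)) => (x.1.1, x.2) :=
    (Primrec.fst.comp Primrec.fst).pair Primrec.snd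
  refine UD.and ?_ ?_
  · refine UD.all_mem (f := fun _ : (ℕ × List (J × (ℕ × ℕ))) × (J × (ℕ × ℕ)) => JL J)
      (p := fun X (x : (ℕ × List (J × (ℕ × ℕ))) × (J × (ℕ × ℕ))) (j : J) =>
        ∃ p ∈ x.1.2, CD τ f ε m w X ((x.1.1, x.2), (j, p))) ?_ (Primrec.const _)
    refine UD.ex_mem (f := fun y : ((ℕ × List (J × (ℕ × ℕ))) × (J × (ℕ × ℕ))) × J => y.1.1.2)
      (p := fun X (y : ((ℕ × List (J × (ℕ × ℕ))) × (J × (ℕ × ℕ))) × J) (p : J × (ℕ × ℕ)) =>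
        CD τ f ε m w X ((y.1.1.1, y.1.2), (y.2, p))) ?_ (pW.comp Primrec.fst)
    exact hCD.comp (f := fun z : (((ℕ × List (J × (ℕ × ℕ))) × (J × (ℕ × ℕ))) × J) ×
        (J × (ℕ × ℕ)) => ((z.1.1.1.1, z.1.1.2), (z.1.2, z.2)))
      ((psq.comp (Primrec.fst.comp Primrec.fst)).pair
        ((Primrec.snd.comp Primrec.fst).pair Primrec.snd))
  · refine UD.all_mem (f := fun x : (ℕ × List (J × (ℕ × ℕ))) × (J × (ℕ × ℕ)) => x.1.2)
      (p := fun X (x : (ℕ × List (J × (ℕ × ℕ))) × (J × (ℕ × ℕ))) (p : J × (ℕ × ℕ)) =>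
        ∃ j ∈ JL J, CD τ f ε m w X ((x.1.1, x.2), (j, p))) ?_ pW
    refine UD.ex_mem (f := fun _ : ((ℕ × List (J × (ℕ × ℕ))) × (J × (ℕ × ℕ))) ×
        (J × (ℕ × ℕ)) => JL J)
      (p := fun X (y : ((ℕ × List (J × (ℕ × ℕ))) × (J × (ℕ × ℕ))) × (J × (ℕ × ℕ))) (j : J) =>
        CD τ f ε m w X ((y.1.1.1, y.1.2), (j, y.2))) ?_ (Primrec.const _)
    exact hCD.comp (f := fun z : (((ℕ × List (J × (ℕ × ℕ))) × (J × (ℕ × ℕ))) ×
        (J × (ℕ × ℕ))) × J => ((z.1.1.1.1, z.1.1.2), (z.2, z.1.2)))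
      ((psq.comp (Primrec.fst.comp Primrec.fst)).pair
        (Primrec.snd.pair (Primrec.snd.comp Primrec.fst)))

theorem us_ILv {τ : Equiv.Perm (ℕ → Bool)} {F : ℕ → ℕ → (ℕ → Bool) → ℕ → ℕ → Prop}
    {f : J → (ℕ → Bool) → ℕ → Bool} (hc : CH τ) (hF : FB τ F) (hf : CF f) (ε : J → Bool)
    (m : J × J → J) (w : J × J → ℕ × ℕ) :
    US fun X (x : (ℕ × ℕ) × List (J × (ℕ × ℕ))) => ILv τ F f ε m w X x.1 x.2 := by
  have hGQ := ud_GQ hc hf ε m w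
  have pW : Primrec fun z : ((ℕ × ℕ) × List (J × (ℕ × ℕ))) × List (J × (ℕ × ℕ)) => z.2 :=
    Primrec.snd
  have pL : Primrec fun z : ((ℕ × ℕ) × List (J × (ℕ × ℕ))) × List (J × (ℕ × ℕ)) => z.1.2 :=
    Primrec.snd.comp Primrec.fst
  have psn : Primrec fun z : ((ℕ × ℕ) × List (J × (ℕ × ℕ))) × List (J × (ℕ × ℕ)) => z.1.1 :=
    Primrec.fst.comp Primrec.fst
  refine US.ex (p := fun X (x : (ℕ × ℕ) × List (J × (ℕ × ℕ))) (W : List (J × (ℕ × ℕ))) =>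
    (∀ p ∈ W, AB τ F x.1.1 x.1.2 (f p.1 X) p.2.1 p.2.2) ∧
    (∀ j ∈ JL J, ∃ p ∈ W, p.1 = j) ∧
    (∀ q ∈ x.2, (∃ p ∈ W, q.1 = p.1 ∧ q.2.2 = p.2.1 ∧ q.2.1 < p.2.1 + p.2.2 + 1) ∧
      GQ τ f ε m w X ((x.1.1, W), q)) ∧
    ∀ p ∈ W, ∀ i < p.2.1 + p.2.2 + 1, ¬ GQ τ f ε m w X ((x.1.1, W), (p.1, (i, p.2.1))) ∨
      (p.1, (i, p.2.1)) ∈ x.2) ?_
  refine US.and ?_ (US.and ?_ (US.and ?_ ?_))
  · refine US.all_mem (f := fun z : ((ℕ × ℕ) × List (J × (ℕ × ℕ))) × List (J × (ℕ × ℕ)) => z.2)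
      (p := fun X (z : ((ℕ × ℕ) × List (J × (ℕ × ℕ))) × List (J × (ℕ × ℕ)))
        (p : J × (ℕ × ℕ)) => AB τ F z.1.1.1 z.1.1.2 (f p.1 X) p.2.1 p.2.2) ?_ pW
    exact us_sub hf (us_AB hc hF)
      (f := fun y : (((ℕ × ℕ) × List (J × (ℕ × ℕ))) × List (J × (ℕ × ℕ))) × (J × (ℕ × ℕ)) =>
        y.2.1)
      (h := fun y : (((ℕ × ℕ) × List (J × (ℕ × ℕ))) × List (J × (ℕ × ℕ))) × (J × (ℕ × ℕ)) =>
        (y.1.1.1, y.2.2))
      (Primrec.fst.comp Primrec.snd) ((psn.comp Primrec.fst).pair (Primrec.snd.comp Primrec.snd))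
  · refine US.of_prim ?_
    have h1 : PrimrecPred fun y : (((ℕ × ℕ) × List (J × (ℕ × ℕ))) × List (J × (ℕ × ℕ))) × J =>
        ∃ p ∈ y.1.2, p.1 = y.2 :=
      PP.ex_mem (f := fun y : (((ℕ × ℕ) × List (J × (ℕ × ℕ))) × List (J × (ℕ × ℕ))) × J =>
          y.1.2)
        (p := fun (y : (((ℕ × ℕ) × List (J × (ℕ × ℕ))) × List (J × (ℕ × ℕ))) × J)
          (p : J × (ℕ × ℕ)) => p.1 = y.2)
        (Primrec.eq.comp (Primrec.fst.comp Primrec.snd) (Primrec.snd.comp Primrec.fst))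
        (pW.comp Primrec.fst)
    exact PP.all_mem (f := fun _ : ((ℕ × ℕ) × List (J × (ℕ × ℕ))) × List (J × (ℕ × ℕ)) => JL J)
      (p := fun (z : ((ℕ × ℕ) × List (J × (ℕ × ℕ))) × List (J × (ℕ × ℕ))) (j : J) =>
        ∃ p ∈ z.2, p.1 = j) h1 (Primrec.const _)
  · refine US.all_mem (f := fun z : ((ℕ × ℕ) × List (J × (ℕ × ℕ))) × List (J × (ℕ × ℕ)) =>
        z.1.2)
      (p := fun X (z : ((ℕ × ℕ) × List (J × (ℕ × ℕ))) × List (J × (ℕ × ℕ)))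
        (q : J × (ℕ × ℕ)) =>
        (∃ p ∈ z.2, q.1 = p.1 ∧ q.2.2 = p.2.1 ∧ q.2.1 < p.2.1 + p.2.2 + 1) ∧
          GQ τ f ε m w X ((z.1.1.1, z.2), q)) ?_ pL
    refine US.and (US.of_prim ?_) (hGQ.1.comp
      (f := fun y : (((ℕ × ℕ) × List (J × (ℕ × ℕ))) × List (J × (ℕ × ℕ))) × (J × (ℕ × ℕ)) =>
        ((y.1.1.1.1, y.1.2), y.2))
      ((((Primrec.fst.comp psn).comp Primrec.fst).pair (pW.comp Primrec.fst)).pair Primrec.snd))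
    refine PP.ex_mem
      (f := fun y : (((ℕ × ℕ) × List (J × (ℕ × ℕ))) × List (J × (ℕ × ℕ))) × (J × (ℕ × ℕ)) =>
        y.1.2)
      (p := fun (y : (((ℕ × ℕ) × List (J × (ℕ × ℕ))) × List (J × (ℕ × ℕ))) × (J × (ℕ × ℕ)))
        (p : J × (ℕ × ℕ)) => y.2.1 = p.1 ∧ y.2.2.2 = p.2.1 ∧ y.2.2.1 < p.2.1 + p.2.2 + 1)
      ?_ (pW.comp Primrec.fst)
    have q1 : Primrec fun v : ((((ℕ × ℕ) × List (J × (ℕ × ℕ))) × List (J × (ℕ × ℕ))) ×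
        (J × (ℕ × ℕ))) × (J × (ℕ × ℕ)) => v.1.2 := Primrec.snd.comp Primrec.fst
    have q2 : Primrec fun v : ((((ℕ × ℕ) × List (J × (ℕ × ℕ))) × List (J × (ℕ × ℕ))) ×
        (J × (ℕ × ℕ))) × (J × (ℕ × ℕ)) => v.2 := Primrec.snd
    refine PrimrecPred.and ?_ (PrimrecPred.and ?_ ?_)
    · exact Primrec.eq.comp (Primrec.fst.comp q1) (Primrec.fst.comp q2)
    · exact Primrec.eq.comp (Primrec.snd.comp (Primrec.snd.comp q1))
        (Primrec.fst.comp (Primrec.snd.comp q2))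
    · exact Primrec.nat_lt.comp (Primrec.fst.comp (Primrec.snd.comp q1))
        (Primrec.succ.comp (Primrec.nat_add.comp (Primrec.fst.comp (Primrec.snd.comp q2))
          (Primrec.snd.comp (Primrec.snd.comp q2))))
  · refine US.all_mem (f := fun z : ((ℕ × ℕ) × List (J × (ℕ × ℕ))) × List (J × (ℕ × ℕ)) =>
        z.2)
      (p := fun X (z : ((ℕ × ℕ) × List (J × (ℕ × ℕ))) × List (J × (ℕ × ℕ)))
        (p : J × (ℕ × ℕ)) => ∀ i < p.2.1 + p.2.2 + 1,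
          ¬ GQ τ f ε m w X ((z.1.1.1, z.2), (p.1, (i, p.2.1))) ∨ (p.1, (i, p.2.1)) ∈ z.1.2) ?_ pW
    have q3 : Primrec fun y : (((ℕ × ℕ) × List (J × (ℕ × ℕ))) × List (J × (ℕ × ℕ))) ×
        (J × (ℕ × ℕ)) => y.2.2 := Primrec.snd.comp Primrec.snd
    refine US.all_lt
      (f := fun y : (((ℕ × ℕ) × List (J × (ℕ × ℕ))) × List (J × (ℕ × ℕ))) × (J × (ℕ × ℕ)) =>
        y.2.2.1 + y.2.2.2 + 1)
      (p := fun X (y : (((ℕ × ℕ) × List (J × (ℕ × ℕ))) × List (J × (ℕ × ℕ))) × (J × (ℕ × ℕ)))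
        (i : ℕ) => ¬ GQ τ f ε m w X ((y.1.1.1.1, y.1.2), (y.2.1, (i, y.2.2.1))) ∨
          (y.2.1, (i, y.2.2.1)) ∈ y.1.1.2) ?_
      (Primrec.succ.comp (Primrec.nat_add.comp (Primrec.fst.comp q3) (Primrec.snd.comp q3)))
    have q4 : Primrec fun v : ((((ℕ × ℕ) × List (J × (ℕ × ℕ))) × List (J × (ℕ × ℕ))) ×
        (J × (ℕ × ℕ))) × ℕ => (v.1.2.1, (v.2, v.1.2.2.1)) :=
      (Primrec.fst.comp (Primrec.snd.comp Primrec.fst)).pair (Primrec.snd.pair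
        (Primrec.fst.comp (Primrec.snd.comp (Primrec.snd.comp Primrec.fst))))
    refine US.or (hGQ.2.comp
      (f := fun v : ((((ℕ × ℕ) × List (J × (ℕ × ℕ))) × List (J × (ℕ × ℕ))) ×
        (J × (ℕ × ℕ))) × ℕ => ((v.1.1.1.1.1, v.1.1.2), (v.1.2.1, (v.2, v.1.2.2.1)))) ?_)
      (US.of_prim (primrec_mem q4 ?_))
    · exact (((Primrec.fst.comp psn).comp (Primrec.fst.comp Primrec.fst)).pair
        (pW.comp (Primrec.fst.comp Primrec.fst))).pair q4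
    · exact pL.comp (Primrec.fst.comp Primrec.fst)

theorem GSv {τ : Equiv.Perm (ℕ → Bool)} {F : ℕ → ℕ → (ℕ → Bool) → ℕ → ℕ → Prop}
    {f : J → (ℕ → Bool) → ℕ → Bool} {j0 : J} {ε : J → Bool} {m : J × J → J}
    {w : J × J → ℕ × ℕ} (h : VZ τ f j0 ε m w) (hF : FB τ F) :
    GS (gg τ f) (mm ε m w) (j0, (0, 0)) (ILv τ F f ε m w) (Cv τ F f) where
  g_one := fun X => by
    unfold gg
    simp only [sh_zero', h.one]
  g_mul := fun i k X => gg_mul h i k X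
  pmul := pmm ε m w
  cf := cf_gg h.hc h.hf
  us := us_ILv h.hc hF h.hf ε m w
  ex := fun X s n => by
    classical
    have h1 := fun j : J => AB_exists (τ := τ) (F := F) s n (f j X)
    choose a b hab using h1
    obtain ⟨W, hW⟩ : ∃ W : List (J × (ℕ × ℕ)), W = (JL J).map fun j => (j, (a j, b j)) := ⟨_, rfl⟩
    refine ⟨(W.flatMap fun p => (List.range (p.2.1 + p.2.2 + 1)).map
      fun i => (p.1, (i, p.2.1))).filter fun q => GQ τ f ε m w X ((s, W), q), W, ?_, ?_, ?_, ?_⟩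
    · intro p hp
      rw [hW] at hp
      obtain ⟨j, _, rfl⟩ := List.mem_map.1 hp
      exact hab j
    · intro j hj
      refine ⟨(j, (a j, b j)), ?_, rfl⟩
      rw [hW]
      exact List.mem_map.2 ⟨j, hj, rfl⟩
    · intro q hq
      rw [List.mem_filter] at hq
      refine ⟨?_, by simpa using hq.2⟩
      obtain ⟨p, hp, hqp⟩ := List.mem_flatMap.1 hq.1
      obtain ⟨i, hi, rfl⟩ := List.mem_map.1 hqp
      exact ⟨p, hp, rfl, rfl, List.mem_range.1 hi⟩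
    · intro p hp i hi
      by_cases hQ : GQ τ f ε m w X ((s, W), (p.1, (i, p.2.1)))
      · right
        rw [List.mem_filter]
        refine ⟨List.mem_flatMap.2 ⟨p, hp, List.mem_map.2 ⟨i, List.mem_range.2 hi, rfl⟩⟩, ?_⟩
        simpa using hQ
      · exact Or.inl hQ
  sound := by
    rintro X s n L ⟨W, h1, h2, h3, h4⟩ Y
    simp only at h1 h2 h3 h4
    have hCl : ∀ p ∈ W, ∀ y, y ∈ Cl τ F s n (f p.1 X) ↔
        ∃ i < p.2.1 + p.2.2 + 1, y = gg τ f (p.1, (i, p.2.1)) X := by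
      intro p hp y
      rw [mem_Cl hF (h1 p hp)]
      simp only [Nat.lt_succ_iff]
      rfl
    have hW : ∀ j, ∃ p ∈ W, p.1 = j := fun j => h2 j (mem_JL j)
    have hCD : ∀ q j, ∀ p ∈ W, CD τ f ε m w X ((s, q), (j, p)) ↔
        ∃ y ∈ Cl τ F s n (f p.1 X), pre (f j (gg τ f q X)) s = pre y s := by
      intro q j p hp
      have e : gg τ f (mm ε m w q (j, (0, 0))) X = f j (gg τ f q X) := by
        rw [← gg_mul h]
        show sh τ 0 0 (f j (gg τ f q X)) = f j (gg τ f q X)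
        exact sh_zero' _
      unfold CD
      simp only [e]
      constructor
      · rintro ⟨i, hi, he⟩
        exact ⟨_, (hCl p hp _).2 ⟨i, hi, rfl⟩, he⟩
      · rintro ⟨y, hy, he⟩
        obtain ⟨i, hi, rfl⟩ := (hCl p hp _).1 hy
        exact ⟨i, hi, he⟩
    have hGQ : ∀ q, GQ τ f ε m w X ((s, W), q) ↔
        (∀ j, ∃ i, ∃ y ∈ Cl τ F s n (f i X), pre (f j (gg τ f q X)) s = pre y s) ∧
        ∀ i, ∃ j, ∃ y ∈ Cl τ F s n (f i X), pre (f j (gg τ f q X)) s = pre y s := by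
      intro q
      unfold GQ
      simp only
      constructor
      · rintro ⟨a1, a2⟩
        refine ⟨fun j => ?_, fun i => ?_⟩
        · obtain ⟨p, hp, hc⟩ := a1 j (mem_JL j)
          exact ⟨p.1, (hCD q j p hp).1 hc⟩
        · obtain ⟨p, hp, rfl⟩ := hW i
          obtain ⟨j, _, hc⟩ := a2 p hp
          exact ⟨j, (hCD q j p hp).1 hc⟩
      · rintro ⟨a1, a2⟩
        refine ⟨fun j _ => ?_, fun p hp => ?_⟩
        · obtain ⟨i, hi⟩ := a1 j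
          obtain ⟨p, hp, rfl⟩ := hW i
          exact ⟨p, hp, (hCD q j p hp).2 hi⟩
        · obtain ⟨j, hj⟩ := a2 p.1
          exact ⟨j, mem_JL j, (hCD q j p hp).2 hj⟩
    constructor
    · rintro ⟨⟨i, hi⟩, b1, b2⟩
      obtain ⟨p, hp, rfl⟩ := hW i
      obtain ⟨k, hk, rfl⟩ := (hCl p hp _).1 hi
      refine ⟨_, (h4 p hp k hk).resolve_left fun hn => hn ((hGQ _).2 ⟨b1, b2⟩), rfl⟩
    · rintro ⟨q, hq, rfl⟩
      obtain ⟨⟨p, hp, e1, e2, hlt⟩, hQ⟩ := h3 q hq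
      obtain ⟨b1, b2⟩ := (hGQ q).1 hQ
      refine ⟨⟨p.1, (hCl p hp _).2 ⟨q.2.1, hlt, ?_⟩⟩, b1, b2⟩
      have : q = (p.1, (q.2.1, p.2.1)) := by
        rw [← e1, ← e2]
      rw [← this]

end

end Pool.Agent.U35.ZV
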