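import Pool.Agent.U35.ZV.Grp
import Pool.Agent.U35.ZA.Pair

set_option autoImplicit false

/-!
Solutions to Post's problem which are invariant under a truth-table reduction on the oracles with
one digit put in front.
-/

namespace Pool.Agent.U35.ZV

open Encodable Pool.Agent.Helper227 Pool.Agent.U35.ZA
open Pool.Agent.H548R2.Post (chr)
open Pool.Agent.H869R3.RT (PostIndex)

/-- the sequence with first digit `b` which is followed by `X` -/
def cs (b : Bool) (X : ℕ → Bool) : ℕ → Bool
  | 0 => b
  | n + 1 => X n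

/-- the change of the first digit -/
def fl (Z : ℕ → Bool) : ℕ → Bool := fun n => xor (decide (n = 0)) (Z n)

theorem fl_fl (Z : ℕ → Bool) : fl (fl Z) = Z := by
  funext n
  unfold fl
  cases decide (n = 0) <;> simp

theorem fl_cs (b : Bool) (X : ℕ → Bool) : fl (cs b X) = cs (!b) X := by
  funext n
  cases n with
  | zero => cases b <;> rfl
  | succ n => simp [fl, cs]

/-! ### the reflection -/

/-- the code of the negative of the integer with code `c` -/
def rf (c : ℕ) : ℕ := if c = 0 then 0 else if c % 2 = 0 then c - 1 else c + 1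

theorem rf_rf (c : ℕ) : rf (rf c) = c := by
  by_cases h0 : c = 0
  · subst h0; rfl
  · by_cases h1 : c % 2 = 0
    · have e1 : rf c = c - 1 := by unfold rf; rw [if_neg h0, if_pos h1]
      have e3 : rf (c - 1) = c - 1 + 1 := by
        unfold rf; rw [if_neg (by omega), if_neg (by omega)]
      rw [e1, e3]
      omega
    · have e1 : rf c = c + 1 := by unfold rf; rw [if_neg h0, if_neg h1]
      have e3 : rf (c + 1) = c + 1 - 1 := by
        unfold rf; rw [if_neg (by omega), if_pos (by omega)]
      rw [e1, e3]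
      omega

theorem nx_rf (c : ℕ) : nx (rf c) = rf (pv c) := by
  by_cases h0 : c = 0
  · subst h0; rfl
  · by_cases h1 : c % 2 = 0
    · have e1 : rf c = c - 1 := by unfold rf; rw [if_neg h0, if_pos h1]
      have e2 : pv c = c - 2 := by unfold pv; rw [if_neg (by omega), if_neg h0]
      rw [e1, e2]
      by_cases h2 : c = 2
      · subst h2; rfl
      · have e3 : nx (c - 1) = c - 1 - 2 := by
          unfold nx; rw [if_neg (by omega), if_neg (by omega)]
        have e4 : rf (c - 2) = c - 2 - 1 := by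
          unfold rf; rw [if_neg (by omega), if_pos (by omega)]
        rw [e3, e4]
        omega
    · have e1 : rf c = c + 1 := by unfold rf; rw [if_neg h0, if_neg h1]
      have e2 : pv c = c + 2 := by unfold pv; rw [if_pos (by omega)]
      have e3 : nx (c + 1) = c + 1 + 2 := by unfold nx; rw [if_pos (by omega)]
      have e4 : rf (c + 2) = c + 2 + 1 := by
        unfold rf; rw [if_neg (by omega), if_neg (by omega)]
      rw [e1, e2, e3, e4]

/-- the reflection, with the change of the first digits of the columns -/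
def rfl' : Equiv.Perm (ℕ → Bool) where
  toFun Z := fun p => xor (decide (p.unpair.2 = 0)) (Z (sf rf p))
  invFun Z := fun p => xor (decide (p.unpair.2 = 0)) (Z (sf rf p))
  left_inv Z := by
    funext p
    simp only [sf, Nat.unpair_pair, rf_rf, Nat.pair_unpair]
    cases decide (p.unpair.2 = 0) <;> simp
  right_inv Z := by
    funext p
    simp only [sf, Nat.unpair_pair, rf_rf, Nat.pair_unpair]
    cases decide (p.unpair.2 = 0) <;> simp

theorem rfl_rfl (Z : ℕ → Bool) : rfl' (rfl' Z) = Z := rfl'.left_inv Z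

theorem rfl_shf : rfl' * shf * rfl'⁻¹ = shf⁻¹ := by
  have h : ∀ Z, rfl' (shf Z) = shf⁻¹ (rfl' Z) := by
    intro Z
    funext p
    show xor (decide (p.unpair.2 = 0)) (Z (sf nx (sf rf p))) =
      xor (decide ((sf pv p).unpair.2 = 0)) (Z (sf rf (sf pv p)))
    simp only [sf, Nat.unpair_pair, nx_rf]
  ext Z
  rw [Equiv.Perm.mul_apply, Equiv.Perm.mul_apply, h, ← Equiv.Perm.mul_apply rfl' rfl'⁻¹,
    mul_inv_cancel, Equiv.Perm.one_apply]

theorem primrec_rf : Primrec rf := by
  unfold rf
  refine Primrec.ite ?_ (Primrec.const 0) (Primrec.ite ?_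
    (Primrec.nat_sub.comp Primrec.id (Primrec.const 1))
    (Primrec.nat_add.comp Primrec.id (Primrec.const 1)))
  · exact Primrec.eq.comp Primrec.id (Primrec.const 0)
  · exact Primrec.eq.comp (Primrec.nat_mod.comp Primrec.id (Primrec.const 2)) (Primrec.const 0)

theorem tt_rfl : TTm fun Z => rfl' Z := by
  have hx : Primrec₂ fun a b : Bool => xor a b :=
    Primrec.dom_finite fun p : Bool × Bool => xor p.1 p.2
  have hz : Primrec fun n : ℕ => decide (n.unpair.2 = 0) := by
    have : PrimrecPred fun n : ℕ => n.unpair.2 = 0 :=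
      Primrec.eq.comp (Primrec.snd.comp Primrec.unpair) (Primrec.const 0)
    exact this.decide
  refine ⟨fun n q => xor (decide (n.unpair.2 = 0)) (q.getD (sf rf n) false), fun n => sf rf n + 1,
    ?_, (Primrec.succ.comp (primrec_sf primrec_rf)).to_comp, ?_⟩
  · exact (hx.comp (hz.comp Primrec.fst) ((Primrec.list_getD false).comp Primrec.snd
      ((primrec_sf primrec_rf).comp Primrec.fst))).to_comp
  · intro X n
    show rfl' X n = xor (decide (n.unpair.2 = 0)) ((pre X (sf rf n + 1)).getD (sf rf n) false)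
    rw [pre_getD X (sf rf n + 1) (sf rf n) false (by omega)]
    rfl

/-! ### the group -/

theorem VZ_port : VZ shf (fun (b : Bool) Z => bif b then rfl' Z else Z) false (fun b => !b)
    (fun p => xor p.1 p.2) (fun _ => (0, 0)) := by
  have hz : ∀ z : ℤ, rfl' * shf ^ z = shf ^ (-z) * rfl' := by
    intro z
    have e : rfl' * shf ^ z = (rfl' * shf * rfl'⁻¹) ^ z * rfl' := by
      rw [conj_zpow]
      group
    rw [e, rfl_shf, inv_zpow']
  refine ⟨CH_shf, CF.cases false _ fun j => ?_, fun _ => rfl, ?_, ?_⟩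
  · cases j
    · exact TTm.cf (φ := fun Z : ℕ → Bool => Z) ⟨fun n q => q.getD n false, fun n => n + 1,
        ((Primrec.list_getD false).comp Primrec.snd Primrec.fst).to_comp,
        Primrec.succ.to_comp, fun X n => (pre_getD X (n + 1) n false (by omega)).symm⟩
    · exact TTm.cf tt_rfl
  · intro i k l X
    cases i
    · rfl
    · show rfl' (O shf ((k : ℤ) - l) X) = O shf ((l : ℤ) - k) (rfl' X)
      unfold O
      rw [← Equiv.Perm.mul_apply, ← Equiv.Perm.mul_apply, hz]
      congr 3
      ring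
  · intro i j X
    simp only [sh_zero']
    cases i <;> cases j <;> simp [rfl_rfl]

theorem main_port : ∃ e : ℕ, PostIndex e ∧ ∀ Z : ℕ → Bool,
    (TLe (chr (WE Z e)) (chr (WE (shf Z) e)) ∧ TLe (chr (WE (shf Z) e)) (chr (WE Z e))) ∧
    (TLe (chr (WE Z e)) (chr (WE (rfl' Z) e)) ∧ TLe (chr (WE (rfl' Z) e)) (chr (WE Z e))) := by
  obtain ⟨F, hF⟩ := exists_FB CH_shf
  have hV := VZ_port
  obtain ⟨e, he, hch⟩ := exists_post (GSv hV hF) (Cv_CS hF hV.one)
  have hR : ∀ Z, rfl' (shf Z) = O shf (-1) (rfl' Z) := by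
    intro Z
    have := hV.conj true 1 0 Z
    simp only [cond_true, Bool.not_true, cond_false] at this
    unfold sh at this
    have e1 : O shf ((1 : ℕ) - (0 : ℕ)) Z = shf Z := by
      unfold O
      simp
    rw [e1] at this
    rw [this]
    congr 1
  have hR' : ∀ Z, rfl' Z = O shf 1 (rfl' (shf Z)) := by
    intro Z
    rw [hR, O_add]
    exact (O_zero shf _).symm
  have h1 : ∀ Z, shf Z = O shf 1 Z := by
    intro Z
    unfold O
    simp
  have h1' : ∀ Z, Z = O shf (-1) (shf Z) := by
    intro Z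
    rw [h1 Z, O_add]
    exact (O_zero shf _).symm
  have h0 : ∀ Z, Z = O shf 0 Z := fun Z => (O_zero shf Z).symm
  have lR : ∀ Z, TLe (rfl' Z) Z := fun Z => tt_rfl.le Z
  have lR' : ∀ Z, TLe Z (rfl' Z) := by
    intro Z
    have := lR (rfl' Z)
    rwa [rfl_rfl] at this
  refine ⟨e, he, fun Z => ⟨?_, ?_⟩⟩
  · rw [hch Z, hch (shf Z)]
    have l1 : TLe (shf Z) Z := by
      have := sh_le CH_shf 1 0 Z
      unfold sh at this
      rw [h1 Z]
      simpa using this
    have l2 : TLe Z (shf Z) := by
      have := sh_le CH_shf 0 1 (shf Z)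
      unfold sh at this
      have e2 : O shf (((0 : ℕ) : ℤ) - ((1 : ℕ) : ℤ)) (shf Z) = Z := by
        rw [h1 Z, O_add]
        exact O_zero shf Z
      rwa [e2] at this
    have key := inv_of hV hF (X := Z) (X' := shf Z) l1 l2 ?_ ?_
    · exact ⟨key.2, key.1⟩
    · intro j
      cases j
      · exact ⟨false, 1, h1 Z⟩
      · exact ⟨true, -1, hR Z⟩
    · intro i
      cases i
      · exact ⟨false, -1, h1' Z⟩
      · exact ⟨true, 1, hR' Z⟩
  · rw [hch Z, hch (rfl' Z)]
    have key := inv_of hV hF (X := Z) (X' := rfl' Z) (lR Z) (lR' Z) ?_ ?_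
    · exact ⟨key.2, key.1⟩
    · intro j
      cases j
      · exact ⟨true, 0, h0 _⟩
      · exact ⟨false, 0, (rfl_rfl Z).trans (h0 Z)⟩
    · intro i
      cases i
      · exact ⟨true, 0, (rfl_rfl Z).symm.trans (h0 _)⟩
      · exact ⟨false, 0, h0 _⟩

/-! ### the unfolding -/

theorem orb_flip {f g : (ℕ → Bool) → ℕ → Bool} (h1 : ∀ Z, fl (g Z) = f (fl Z))
    (h2 : ∀ Z, fl (f Z) = g (fl Z)) (Z : ℕ → Bool) : orb f g (fl Z) = rfl' (orb f g Z) := by
  have k1 : ∀ j Z, f^[j] (fl Z) = fl (g^[j] Z) := fun j Z =>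
    ((Function.Semiconj.iterate_right (f := fl) (ga := g) (gb := f) h1 j) Z).symm
  have k2 : ∀ j Z, g^[j] (fl Z) = fl (f^[j] Z) := fun j Z =>
    ((Function.Semiconj.iterate_right (f := fl) (ga := f) (gb := g) h2 j) Z).symm
  funext p
  show orb f g (fl Z) p = xor (decide (p.unpair.2 = 0)) (orb f g Z (sf rf p))
  unfold orb sf
  rw [Nat.unpair_pair]
  simp only
  by_cases h0 : p.unpair.1 = 0
  · have e1 : rf p.unpair.1 = 0 := by unfold rf; rw [if_pos h0]
    rw [e1, h0]
    rfl
  · by_cases hp : p.unpair.1 % 2 = 0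
    · have e1 : rf p.unpair.1 = p.unpair.1 - 1 := by unfold rf; rw [if_neg h0, if_pos hp]
      have e2 : ¬ (p.unpair.1 - 1) % 2 = 0 := by omega
      have e3 : (p.unpair.1 - 1) / 2 + 1 = p.unpair.1 / 2 := by omega
      rw [if_pos hp, e1, if_neg e2, e3, k1]
      rfl
    · have e1 : rf p.unpair.1 = p.unpair.1 + 1 := by unfold rf; rw [if_neg h0, if_neg hp]
      have e2 : (p.unpair.1 + 1) % 2 = 0 := by omega
      have e3 : (p.unpair.1 + 1) / 2 = p.unpair.1 / 2 + 1 := by omega
      rw [if_neg hp, e1, if_pos e2, e3, k2]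
      rfl

/-- the change of the first digit of a list -/
def flL : List Bool → List Bool
  | [] => []
  | b :: l => (!b) :: l

theorem primrec_flL : Primrec flL := by
  have h := Primrec.list_casesOn (f := fun l : List Bool => l) (g := fun _ : List Bool =>
    ([] : List Bool)) (h := fun (_ : List Bool) (y : Bool × List Bool) => (!y.1) :: y.2)
    Primrec.id (Primrec.const []) ?_
  · refine h.of_eq fun l => ?_
    cases l <;> rfl
  · exact Primrec.list_cons.comp (Primrec.not.comp (Primrec.fst.comp Primrec.snd))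
      (Primrec.snd.comp Primrec.snd)

theorem pre_succ' (X : ℕ → Bool) (m : ℕ) : pre X (m + 1) = X 0 :: pre (fun n => X (n + 1)) m := by
  unfold pre
  rw [List.range_succ_eq_map, List.map_cons, List.map_map]
  rfl

theorem pre_fl (X : ℕ → Bool) (m : ℕ) : pre (fl X) m = flL (pre X m) := by
  cases m with
  | zero => rfl
  | succ m =>
    rw [pre_succ', pre_succ']
    unfold flL
    simp [fl]

theorem pre_cs (b : Bool) (X : ℕ → Bool) (m : ℕ) : pre (cs b X) m = (b :: pre X m).take m := by
  cases m with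
  | zero => rfl
  | succ m =>
    rw [pre_succ', List.take_succ_cons, take_pre X (m + 1) m (by omega)]
    rfl

theorem tt_cs {φ : (ℕ → Bool) → ℕ → Bool} (h : TTm φ) (b : Bool) : TTm fun X => φ (cs b X) := by
  obtain ⟨δ, u, hδ, hu, e⟩ := h
  refine ⟨fun n q => δ n ((b :: q).take (u n)), u, ?_, hu, ?_⟩
  · have htk : Computable₂ fun (n : ℕ) (l : List Bool) => l.take n :=
      (Primrec.list_take (α := Bool)).to_comp
    have hcons : Computable fun l : List Bool => b :: l :=
      (Primrec.list_cons.comp (Primrec.const b) Primrec.id).to_comp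
    exact hδ.comp Computable.fst (htk.comp (hu.comp Computable.fst)
      (hcons.comp Computable.snd))
  · intro X n
    show φ (cs b X) n = δ n ((b :: pre X (u n)).take (u n))
    rw [e, pre_cs]

theorem tt_fl_left {P : (ℕ → Bool) → ℕ → Bool} (h : TTm P) : TTm fun Z => fl (P Z) := by
  obtain ⟨δ, u, hδ, hu, e⟩ := h
  refine ⟨fun n q => xor (decide (n = 0)) (δ n q), u, ?_, hu, ?_⟩
  · have hx : Computable₂ fun a b : Bool => xor a b :=
      (Primrec.dom_finite fun p : Bool × Bool => xor p.1 p.2).to_comp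
    have hz : Primrec fun n : ℕ => decide (n = 0) := by
      have : PrimrecPred fun n : ℕ => n = 0 := Primrec.eq.comp Primrec.id (Primrec.const 0)
      exact this.decide
    exact hx.comp (hz.to_comp.comp Computable.fst) (hδ.comp Computable.fst Computable.snd)
  · intro X n
    show fl (P X) n = xor (decide (n = 0)) (δ n (pre X (u n)))
    rw [← e]
    rfl

theorem tt_fl_right {P : (ℕ → Bool) → ℕ → Bool} (h : TTm P) : TTm fun Z => P (fl Z) := by
  obtain ⟨δ, u, hδ, hu, e⟩ := h
  refine ⟨fun n q => δ n (flL q), u, ?_, hu, ?_⟩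
  · exact hδ.comp Computable.fst (primrec_flL.to_comp.comp Computable.snd)
  · intro X n
    show P (fl X) n = δ n (flL (pre X (u n)))
    rw [e, pre_fl]

/-- the theorem on one truth-table reduction with two ports -/
theorem main_two {P : (ℕ → Bool) → ℕ → Bool} (hP : TTm P) :
    ∃ e : ℕ, PostIndex e ∧ ∀ (X Y : ℕ → Bool) (b c : Bool), cs c Y = P (cs b X) →
      cs b X = P (cs c Y) →
      TLe (chr (WE X e)) (chr (WE Y e)) ∧ TLe (chr (WE Y e)) (chr (WE X e)) := by
  obtain ⟨f, hf⟩ : ∃ f : (ℕ → Bool) → ℕ → Bool, f = fun Z => fl (P Z) := ⟨_, rfl⟩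
  obtain ⟨g, hg⟩ : ∃ g : (ℕ → Bool) → ℕ → Bool, g = fun Z => P (fl Z) := ⟨_, rfl⟩
  have tf : TTm f := by rw [hf]; exact tt_fl_left hP
  have tg : TTm g := by rw [hg]; exact tt_fl_right hP
  have h1 : ∀ Z, fl (g Z) = f (fl Z) := fun Z => by rw [hf, hg]
  have h2 : ∀ Z, fl (f Z) = g (fl Z) := fun Z => by
    rw [hf, hg]
    simp only [fl_fl]
  obtain ⟨e, he, hinv⟩ := main_port
  have hle : ∀ X, TLe X (orb f g (cs false X)) := by
    intro X
    have hc : Computable fun n : ℕ => Nat.pair 0 (n + 1) :=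
      (Primrec₂.natPair.comp (Primrec.const 0) Primrec.succ).to_comp
    refine tLe_of_computable hc fun n => ?_
    unfold orb
    simp [cs]
  obtain ⟨e', he', h⟩ := transfer (φ := fun X => orb f g (cs false X))
    (tt_cs (tt_orb tf tg) false) hle he
  have hflip : ∀ (b : Bool) (X : ℕ → Bool),
      TLe (chr (WE (orb f g (cs false X)) e)) (chr (WE (orb f g (cs b X)) e)) ∧
        TLe (chr (WE (orb f g (cs b X)) e)) (chr (WE (orb f g (cs false X)) e)) := by
    intro b X
    cases b
    · exact ⟨TuringReducible.refl _, TuringReducible.refl _⟩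
    · have e1 : cs true X = fl (cs false X) := by rw [fl_cs]; rfl
      rw [e1, orb_flip h1 h2]
      exact (hinv _).2
  refine ⟨e', he', fun X Y b c hXY hYX => ?_⟩
  rw [h X, h Y]
  have l1 : cs (!c) Y = f (cs b X) := by
    rw [hf, ← fl_cs]
    simp only
    rw [← hXY]
  have l2 : cs b X = g (cs (!c) Y) := by
    rw [hg, ← fl_cs]
    simp only [fl_fl]
    exact hYX
  have hs := orb_link l1 l2
  have m1 := hflip b X
  have m2 := (hinv (orb f g (cs b X))).1
  rw [← hs] at m2
  have m3 := hflip (!c) Y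
  exact ⟨TuringReducible.trans m1.1 (TuringReducible.trans m2.1 m3.2),
    TuringReducible.trans m3.1 (TuringReducible.trans m2.2 m1.2)⟩

end Pool.Agent.U35.ZV
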