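import Pool.Agent.U35.ZV.GA

set_option autoImplicit false

/-!
The classes for a group of homeomorphisms with an infinite cyclic normal subgroup of finite index.
-/

namespace Pool.Agent.U35.ZV

open Encodable Pool.Agent.Helper227 Pool.Agent.U35.ZA

/-- decidable, uniformly in the oracle -/
def UD {α : Type} [Primcodable α] (p : (ℕ → Bool) → α → Prop) : Prop :=
  US p ∧ US fun X a => ¬ p X a

namespace UD

variable {α β : Type} [Primcodable α] [Primcodable β]

theorem of_eq {p q : (ℕ → Bool) → α → Prop} (hp : UD p) (h : ∀ X a, p X a ↔ q X a) : UD q :=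
  (funext fun X => funext fun a => propext (h X a) : p = q) ▸ hp

theorem of_prim {p : α → Prop} (hp : PrimrecPred p) : UD fun _ => p :=
  ⟨US.of_prim hp, US.of_prim (PrimrecPred.not hp)⟩

theorem comp {p : (ℕ → Bool) → β → Prop} {f : α → β} (hp : UD p) (hf : Primrec f) :
    UD fun X a => p X (f a) := ⟨hp.1.comp hf, hp.2.comp hf⟩

theorem not {p : (ℕ → Bool) → α → Prop} (hp : UD p) : UD fun X a => ¬ p X a :=
  ⟨hp.2, hp.1.of_eq fun _ _ => not_not.symm⟩

theorem and {p q : (ℕ → Bool) → α → Prop} (hp : UD p) (hq : UD q) :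
    UD fun X a => p X a ∧ q X a :=
  ⟨hp.1.and hq.1, (hp.2.or hq.2).of_eq fun _ _ => not_and_or.symm⟩

theorem all_mem {p : (ℕ → Bool) → α → β → Prop} {f : α → List β}
    (hp : UD fun X (x : α × β) => p X x.1 x.2) (hf : Primrec f) :
    UD fun X a => ∀ b ∈ f a, p X a b := by
  refine ⟨US.all_mem hp.1 hf, (US.ex (p := fun X a b => b ∈ f a ∧ ¬ p X a b) (US.and
    (US.of_prim (primrec_mem Primrec.snd (hf.comp Primrec.fst))) hp.2)).of_eq fun X a => ?_⟩
  constructor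
  · rintro ⟨b, hb, h⟩ hall
    exact h (hall b hb)
  · intro h
    by_contra hcon
    exact h fun b hb => by
      by_contra hr
      exact hcon ⟨b, hb, hr⟩

theorem ex_mem {p : (ℕ → Bool) → α → β → Prop} {f : α → List β}
    (hp : UD fun X (x : α × β) => p X x.1 x.2) (hf : Primrec f) :
    UD fun X a => ∃ b ∈ f a, p X a b := by
  refine (all_mem (p := fun X a b => ¬ p X a b) hp.not hf).not.of_eq fun X a => ?_
  constructor
  · intro h
    by_contra hcon
    exact h fun b hb hp => hcon ⟨b, hb, hp⟩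
  · rintro ⟨b, hb, h⟩ hall
    exact hall b hb h

theorem ex_lt {p : (ℕ → Bool) → α → ℕ → Prop} {f : α → ℕ}
    (hp : UD fun X (x : α × ℕ) => p X x.1 x.2) (hf : Primrec f) :
    UD fun X a => ∃ b < f a, p X a b :=
  (ex_mem hp (Primrec.list_range.comp hf)).of_eq (by simp)

end UD

theorem ud_pre {ι : Type} [Primcodable ι] {g : ι → (ℕ → Bool) → ℕ → Bool} (cf : CF g) :
    UD fun X (x : (ι × ι) × ℕ) => pre (g x.1.1 X) x.2 = pre (g x.1.2 X) x.2 := by
  have h1 : US fun X (z : ((ι × ι) × ℕ) × List Bool) => pre (g z.1.1.1 X) z.1.2 = z.2 :=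
    cf.us.comp (f := fun z : ((ι × ι) × ℕ) × List Bool => ((z.1.1.1, z.1.2), z.2))
      (((Primrec.fst.comp (Primrec.fst.comp Primrec.fst)).pair
        (Primrec.snd.comp Primrec.fst)).pair Primrec.snd)
  have h2 : US fun X (z : ((ι × ι) × ℕ) × List Bool) => pre (g z.1.1.2 X) z.1.2 = z.2 :=
    cf.us.comp (f := fun z : ((ι × ι) × ℕ) × List Bool => ((z.1.1.2, z.1.2), z.2))
      (((Primrec.snd.comp (Primrec.fst.comp Primrec.fst)).pair
        (Primrec.snd.comp Primrec.fst)).pair Primrec.snd)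
  have h3 : US fun X (z : ((ι × ι) × ℕ) × List Bool) => ¬ pre (g z.1.1.1 X) z.1.2 = z.2 :=
    cf.us_ne.comp (f := fun z : ((ι × ι) × ℕ) × List Bool => ((z.1.1.1, z.1.2), z.2))
      (((Primrec.fst.comp (Primrec.fst.comp Primrec.fst)).pair
        (Primrec.snd.comp Primrec.fst)).pair Primrec.snd)
  constructor
  · refine (US.ex (p := fun X (x : (ι × ι) × ℕ) (L : List Bool) =>
      pre (g x.1.1 X) x.2 = L ∧ pre (g x.1.2 X) x.2 = L) (h1.and h2)).of_eq fun X x => ?_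
    constructor
    · rintro ⟨L, e1, e2⟩
      rw [e1, e2]
    · intro h
      exact ⟨_, h, rfl⟩
  · refine (US.ex (p := fun X (x : (ι × ι) × ℕ) (L : List Bool) =>
      ¬ pre (g x.1.1 X) x.2 = L ∧ pre (g x.1.2 X) x.2 = L) (h3.and h2)).of_eq fun X x => ?_
    constructor
    · rintro ⟨L, e1, e2⟩ e3
      exact e1 (e3.trans e2)
    · intro h
      exact ⟨_, h, rfl⟩

/-- definition by cases over a finite type -/
theorem comp_cases {J β γ : Type} [Primcodable J] [Finite J] [Primcodable β] [Primcodable γ]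
    (j0 : J) (V : J → β → γ) (hV : ∀ j, Computable (V j)) :
    Computable fun x : J × β => V x.1 x.2 := by
  classical
  have key : ∀ S : Finset J, ∃ W : J × β → γ, Computable W ∧ ∀ j ∈ S, ∀ b, W (j, b) = V j b := by
    intro S
    induction S using Finset.induction_on with
    | empty => exact ⟨fun x => V j0 x.2, (hV j0).comp Computable.snd, by simp⟩
    | insert a S _ ih =>
      obtain ⟨W, hW, h⟩ := ih
      refine ⟨fun x => bif decide (x.1 = a) then V a x.2 else W x, ?_, ?_⟩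
      · refine Computable.cond ?_ ((hV a).comp Computable.snd) hW
        exact (Primrec.dom_finite fun j : J => decide (j = a)).to_comp.comp Computable.fst
      · intro j hj b
        by_cases hja : j = a
        · subst hja
          simp
        · have := h j ((Finset.mem_insert.1 hj).resolve_left hja) b
          simp [hja, this]
  have := Fintype.ofFinite J
  obtain ⟨W, hW, h⟩ := key Finset.univ
  exact hW.of_eq fun x => h x.1 (Finset.mem_univ _) x.2

theorem CF.cases {J : Type} [Primcodable J] [Finite J] (j0 : J)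
    (f : J → (ℕ → Bool) → ℕ → Bool) (h : ∀ j, CF fun (_ : Unit) X => f j X) : CF f := by
  choose V G hV hG e using h
  refine ⟨fun x => V x.1 ((), x.2), fun x => G x.1.1 (((), x.1.2), x.2), ?_, ?_, fun j X m =>
    e j () X m⟩
  · exact comp_cases j0 (fun j (m : ℕ) => V j ((), m)) fun j =>
      (hV j).comp ((Computable.const ()).pair Computable.id)
  · have h1 := comp_cases j0 (fun j (y : ℕ × List Bool) => G j (((), y.1), y.2)) fun j =>
      (hG j).comp (((Computable.const ()).pair Computable.fst).pair Computable.snd)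
    exact h1.comp (f := fun x : J × (ℕ × List Bool) => G x.1 (((), x.2.1), x.2.2))
      (g := fun x : (J × ℕ) × List Bool => (x.1.1, (x.1.2, x.2)))
      ((Computable.fst.comp Computable.fst).pair
        ((Computable.snd.comp Computable.fst).pair Computable.snd))

/-- the class which is made of the classes `C j` -/
def DD {J : Type} (f : J → (ℕ → Bool) → ℕ → Bool) (s : ℕ) (C : J → Set (ℕ → Bool)) :
    Set (ℕ → Bool) :=
  {Z | (∃ i, Z ∈ C i) ∧ (∀ j, ∃ i, ∃ y ∈ C i, pre (f j Z) s = pre y s) ∧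
    ∀ i, ∃ j, ∃ y ∈ C i, pre (f j Z) s = pre y s}

theorem DD_congr {J : Type} {f : J → (ℕ → Bool) → ℕ → Bool} {s : ℕ}
    {C C' : J → Set (ℕ → Bool)} (h1 : ∀ i, ∃ i', C i = C' i') (h2 : ∀ i', ∃ i, C' i' = C i) :
    DD f s C = DD f s C' := by
  have key : ∀ C C' : J → Set (ℕ → Bool), (∀ i, ∃ i', C i = C' i') →
      (∀ i', ∃ i, C' i' = C i) → DD f s C ⊆ DD f s C' := by
    rintro C C' h1 h2 Z ⟨⟨i, hi⟩, h3, h4⟩
    refine ⟨?_, fun j => ?_, fun i' => ?_⟩
    · obtain ⟨i', e⟩ := h1 i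
      exact ⟨i', e ▸ hi⟩
    · obtain ⟨i, y, hy, e⟩ := h3 j
      obtain ⟨i', e'⟩ := h1 i
      exact ⟨i', y, e' ▸ hy, e⟩
    · obtain ⟨i, e'⟩ := h2 i'
      obtain ⟨j, y, hy, e⟩ := h4 i
      exact ⟨j, y, by rw [e']; exact hy, e⟩
  exact Set.Subset.antisymm (key _ _ h1 h2) (key _ _ h2 h1)

/-- the classes of the group -/
def Cv {J : Type} (τ : Equiv.Perm (ℕ → Bool)) (F : ℕ → ℕ → (ℕ → Bool) → ℕ → ℕ → Prop)
    (f : J → (ℕ → Bool) → ℕ → Bool) (s n : ℕ) (X : ℕ → Bool) : Set (ℕ → Bool) :=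
  DD f s fun j => Cl τ F s n (f j X)

theorem exists_sep {P Q : Set (ℕ → Bool)} (hP : P.Finite) (hQ : Q.Finite) :
    ∃ s1, ∀ s ≥ s1, ∀ x ∈ P, ∀ y ∈ Q, pre x s = pre y s → x = y := by
  classical
  have h1 : ∀ z : (ℕ → Bool) × (ℕ → Bool), ∃ m, z.1 ≠ z.2 → ¬ pre z.1 m = pre z.2 m := by
    intro z
    by_cases h : z.1 ≠ z.2
    · obtain ⟨m, hm⟩ := exists_pre_ne h
      exact ⟨m, fun _ => hm⟩
    · exact ⟨0, fun h' => absurd h' h⟩
  choose m hm using h1
  refine ⟨(hP.prod hQ).toFinset.sup m, fun s hs x hx y hy e => ?_⟩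
  by_contra hne
  have h2 : m (x, y) ≤ (hP.prod hQ).toFinset.sup m :=
    Finset.le_sup (f := m) ((hP.prod hQ).mem_toFinset.2 ⟨hx, hy⟩)
  exact pre_ne_mono (h2.trans hs) (hm (x, y) hne) e

theorem Cv_CS {J : Type} [Finite J] {τ : Equiv.Perm (ℕ → Bool)}
    {F : ℕ → ℕ → (ℕ → Bool) → ℕ → ℕ → Prop} (hF : FB τ F) {f : J → (ℕ → Bool) → ℕ → Bool}
    {j0 : J} (hj : ∀ X, f j0 X = X) : CS (Cv τ F f) where
  self := fun s n X => by
    refine ⟨⟨j0, ?_⟩, fun j => ⟨j, f j X, self_mem_Cl hF s n _, rfl⟩,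
      fun j => ⟨j, f j X, self_mem_Cl hF s n _, rfl⟩⟩
    show X ∈ Cl τ F s n (f j0 X)
    rw [hj]
    exact self_mem_Cl hF s n X
  stable := fun n X => by
    classical
    have := Fintype.ofFinite J
    have h1 := fun j : J => Cl_stable hF n (f j X)
    choose t C hC1 hC2 hC3 using h1
    have hU : (⋃ i, C i).Finite := Set.finite_iUnion hC1
    have hP : (⋃ j, f j '' (⋃ i, C i)).Finite := Set.finite_iUnion fun j => hU.image _
    obtain ⟨s1, hs1⟩ := exists_sep hP hU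
    have hD : ∀ s ≥ s1, DD f s C = {Z | (∃ i, Z ∈ C i) ∧ (∀ j, ∃ i, f j Z ∈ C i) ∧
        ∀ i, ∃ j, f j Z ∈ C i} := by
      intro s hs
      ext Z
      constructor
      · rintro ⟨⟨i0, h0⟩, h3, h4⟩
        have hZ : ∀ j, f j Z ∈ ⋃ j, f j '' (⋃ i, C i) := fun j =>
          Set.mem_iUnion.2 ⟨j, Z, Set.mem_iUnion.2 ⟨i0, h0⟩, rfl⟩
        refine ⟨⟨i0, h0⟩, fun j => ?_, fun i => ?_⟩
        · obtain ⟨i, y, hy, e⟩ := h3 j
          have := hs1 s hs _ (hZ j) y (Set.mem_iUnion.2 ⟨i, hy⟩) e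
          exact ⟨i, by rw [this]; exact hy⟩
        · obtain ⟨j, y, hy, e⟩ := h4 i
          have := hs1 s hs _ (hZ j) y (Set.mem_iUnion.2 ⟨i, hy⟩) e
          exact ⟨j, by rw [this]; exact hy⟩
      · rintro ⟨h0, h3, h4⟩
        refine ⟨h0, fun j => ?_, fun i => ?_⟩
        · obtain ⟨i, h⟩ := h3 j
          exact ⟨i, _, h, rfl⟩
        · obtain ⟨j, h⟩ := h4 i
          exact ⟨j, _, h, rfl⟩
    refine ⟨max s1 (Finset.univ.sup t), {Z | (∃ i, Z ∈ C i) ∧ (∀ j, ∃ i, f j Z ∈ C i) ∧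
        ∀ i, ∃ j, f j Z ∈ C i}, ?_, ?_, ?_⟩
    · refine hU.subset ?_
      rintro Z ⟨⟨i, hi⟩, _⟩
      exact Set.mem_iUnion.2 ⟨i, hi⟩
    · refine ⟨⟨j0, ?_⟩, fun j => ⟨j, hC2 j⟩, fun j => ⟨j, hC2 j⟩⟩
      have := hC2 j0
      rwa [hj] at this
    · rintro s hs Z ⟨_, h3, h4⟩
      have hst : ∀ i, ∀ Y ∈ C i, Cl τ F s n Y = C i := by
        intro i Y hY
        have : t i ≤ Finset.univ.sup t := Finset.le_sup (Finset.mem_univ i)
        exact hC3 i s (by omega) Y hY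
      rw [← hD s (by omega)]
      refine DD_congr (fun j => ?_) fun i => ?_
      · obtain ⟨i, h⟩ := h3 j
        exact ⟨i, hst i _ h⟩
      · obtain ⟨j, h⟩ := h4 i
        exact ⟨j, (hst i _ h).symm⟩

/-- a group of maps with a normal cyclic subgroup -/
structure VZ {J : Type} [Primcodable J] (τ : Equiv.Perm (ℕ → Bool))
    (f : J → (ℕ → Bool) → ℕ → Bool) (j0 : J) (ε : J → Bool) (m : J × J → J)
    (w : J × J → ℕ × ℕ) : Prop where
  hc : CH τ
  hf : CF f
  one : ∀ X, f j0 X = X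
  conj : ∀ i k l X, f i (sh τ k l X) =
    bif ε i then sh τ k l (f i X) else sh τ l k (f i X)
  mul : ∀ i j X, f i (f j X) = sh τ (w (i, j)).1 (w (i, j)).2 (f (m (i, j)) X)

section
variable {J : Type} [Primcodable J]

/-- the elements of the group -/
def gg (τ : Equiv.Perm (ℕ → Bool)) (f : J → (ℕ → Bool) → ℕ → Bool) (x : J × (ℕ × ℕ))
    (X : ℕ → Bool) : ℕ → Bool := sh τ x.2.1 x.2.2 (f x.1 X)

/-- the multiplication -/
def mm (ε : J → Bool) (m : J × J → J) (w : J × J → ℕ × ℕ) (x y : J × (ℕ × ℕ)) : J × (ℕ × ℕ) :=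
  (m (y.1, x.1), ((w (y.1, x.1)).1 + (bif ε y.1 then x.2.1 else x.2.2) + y.2.1,
    (w (y.1, x.1)).2 + (bif ε y.1 then x.2.2 else x.2.1) + y.2.2))

theorem gg_mul {τ : Equiv.Perm (ℕ → Bool)} {f : J → (ℕ → Bool) → ℕ → Bool} {j0 : J}
    {ε : J → Bool} {m : J × J → J} {w : J × J → ℕ × ℕ} (h : VZ τ f j0 ε m w)
    (y x : J × (ℕ × ℕ)) (X : ℕ → Bool) :
    gg τ f y (gg τ f x X) = gg τ f (mm ε m w x y) X := by
  unfold gg mm
  rw [h.conj]
  cases ε y.1
  · simp only [cond_false, h.mul, sh_sh']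
  · simp only [cond_true, h.mul, sh_sh']

theorem pmm [Finite J] (ε : J → Bool) (m : J × J → J) (w : J × J → ℕ × ℕ) :
    Primrec₂ (mm ε m w) := by
  have hx : Primrec fun z : (J × (ℕ × ℕ)) × (J × (ℕ × ℕ)) => (z.2.1, z.1.1) :=
    (Primrec.fst.comp Primrec.snd).pair (Primrec.fst.comp Primrec.fst)
  have hw : Primrec fun z : (J × (ℕ × ℕ)) × (J × (ℕ × ℕ)) => w (z.2.1, z.1.1) :=
    (Primrec.dom_finite w).comp hx
  have hm : Primrec fun z : (J × (ℕ × ℕ)) × (J × (ℕ × ℕ)) => m (z.2.1, z.1.1) :=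
    (Primrec.dom_finite m).comp hx
  have he : Primrec fun z : (J × (ℕ × ℕ)) × (J × (ℕ × ℕ)) => ε z.2.1 :=
    (Primrec.dom_finite ε).comp (Primrec.fst.comp Primrec.snd)
  have hx1 : Primrec fun z : (J × (ℕ × ℕ)) × (J × (ℕ × ℕ)) => z.1.2.1 :=
    Primrec.fst.comp (Primrec.snd.comp Primrec.fst)
  have hx2 : Primrec fun z : (J × (ℕ × ℕ)) × (J × (ℕ × ℕ)) => z.1.2.2 :=
    Primrec.snd.comp (Primrec.snd.comp Primrec.fst)
  have hy1 : Primrec fun z : (J × (ℕ × ℕ)) × (J × (ℕ × ℕ)) => z.2.2.1 :=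
    Primrec.fst.comp (Primrec.snd.comp Primrec.snd)
  have hy2 : Primrec fun z : (J × (ℕ × ℕ)) × (J × (ℕ × ℕ)) => z.2.2.2 :=
    Primrec.snd.comp (Primrec.snd.comp Primrec.snd)
  exact hm.pair ((Primrec.nat_add.comp (Primrec.nat_add.comp (Primrec.fst.comp hw)
    (Primrec.cond he hx1 hx2)) hy1).pair (Primrec.nat_add.comp (Primrec.nat_add.comp
    (Primrec.snd.comp hw) (Primrec.cond he hx2 hx1)) hy2))

theorem cf_gg {τ : Equiv.Perm (ℕ → Bool)} {f : J → (ℕ → Bool) → ℕ → Bool} (hc : CH τ)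
    (hf : CF f) : CF (gg τ f) := by
  have h1 := (show CF fun (x : ℕ × ℕ) X => sh τ x.1 x.2 X from hc).comp hf
  exact h1.comp_idx (f := fun x : J × (ℕ × ℕ) => (x.2, x.1))
    (Computable.snd.pair Computable.fst)

end

end Pool.Agent.U35.ZV
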